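import Pool.Agent.Lib.MP_4964e1_lc.TQ86

/-!
Cancellation for disjoint unions of finite graphs; the logical depth of a summand.
-/

namespace Pool.Agent.Lib.MP_4964e1_lc

open SimpleGraph

variable {K A B : Type}

section trace

variable (e : K ⊕ A ≃ K ⊕ B)

/-- follow the map until the second summand is reached -/
def nx (z : K ⊕ B) : K ⊕ B := Sum.elim (fun k => e (Sum.inl k)) Sum.inr z

theorem nx_inr (b : B) (t : ℕ) : (nx e)^[t] (Sum.inr b) = Sum.inr b := by
  induction t with
  | zero => rfl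
  | succ t ih => rw [Function.iterate_succ_apply]; exact ih

/-- a value in the first summand at time `t + 1` comes from one at time `t` -/
theorem nx_prev {z : K ⊕ B} {t : ℕ} {k : K} (h : (nx e)^[t + 1] z = Sum.inl k) :
    ∃ c, (nx e)^[t] z = Sum.inl c ∧ e (Sum.inl c) = Sum.inl k := by
  rw [Function.iterate_succ_apply'] at h
  rcases hz : (nx e)^[t] z with c | b
  · rw [hz] at h
    exact ⟨c, rfl, h⟩
  · rw [hz] at h
    cases h

theorem nx_inj_aux (a a' : A) : ∀ (t t' : ℕ) (k : K),
    (nx e)^[t] (e (Sum.inr a)) = Sum.inl k → (nx e)^[t'] (e (Sum.inr a')) = Sum.inl k →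
    a = a' := by
  intro t
  induction t with
  | zero =>
    intro t' k h h'
    rcases t' with _ | t'
    · exact Sum.inr_injective (e.injective (h.trans h'.symm))
    · obtain ⟨c, -, h2⟩ := nx_prev e h'
      have := e.injective ((show e (Sum.inr a) = Sum.inl k from h).trans h2.symm)
      cases this
  | succ t ih =>
    intro t' k h h'
    obtain ⟨c, h1, h2⟩ := nx_prev e h
    rcases t' with _ | t'
    · have := e.injective ((show e (Sum.inr a') = Sum.inl k from h').trans h2.symm)
      cases this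
    · obtain ⟨c', h1', h2'⟩ := nx_prev e h'
      have hc := Sum.inl_injective (e.injective (h2.trans h2'.symm))
      subst hc
      exact ih t' c h1 h1'

/-- first arrival -/
theorem nx_first {z : K ⊕ B} {t : ℕ} {b : B} (h : (nx e)^[t] z = Sum.inr b) :
    z = Sum.inr b ∨ ∃ (s : ℕ) (k : K), (nx e)^[s] z = Sum.inl k ∧ e (Sum.inl k) = Sum.inr b := by
  induction t with
  | zero => exact Or.inl h
  | succ t ih =>
    rw [Function.iterate_succ_apply'] at h
    rcases hz : (nx e)^[t] z with k | b'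
    · rw [hz] at h
      exact Or.inr ⟨t, k, hz, h⟩
    · rw [hz] at h
      have : b' = b := Sum.inr_injective h
      subst this
      exact ih hz

theorem nx_inj (a a' : A) (t t' : ℕ) (b : B) (h : (nx e)^[t] (e (Sum.inr a)) = Sum.inr b)
    (h' : (nx e)^[t'] (e (Sum.inr a')) = Sum.inr b) : a = a' := by
  rcases nx_first e h with h1 | ⟨s, k, h1, h2⟩
  · rcases nx_first e h' with h1' | ⟨s', k', h1', h2'⟩
    · exact Sum.inr_injective (e.injective (h1.trans h1'.symm))
    · have := e.injective (h1.trans h2'.symm)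
      cases this
  · rcases nx_first e h' with h1' | ⟨s', k', h1', h2'⟩
    · have := e.injective (h1'.trans h2.symm)
      cases this
    · have hk := Sum.inl_injective (e.injective (h2.trans h2'.symm))
      subst hk
      exact nx_inj_aux e a a' s s' k h1 h1'

/-- no value of the first summand is repeated -/
theorem nx_distinct (a : A) : ∀ (i j : ℕ) (k : K), i < j →
    (nx e)^[i] (e (Sum.inr a)) = Sum.inl k → (nx e)^[j] (e (Sum.inr a)) ≠ Sum.inl k := by
  intro i
  induction i with
  | zero =>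
    intro j k hij h h'
    obtain ⟨j, rfl⟩ : ∃ j', j = j' + 1 := ⟨j - 1, by omega⟩
    obtain ⟨c, -, h2⟩ := nx_prev e h'
    have := e.injective ((show e (Sum.inr a) = Sum.inl k from h).trans h2.symm)
    cases this
  | succ i ih =>
    intro j k hij h h'
    obtain ⟨j, rfl⟩ : ∃ j', j = j' + 1 := ⟨j - 1, by omega⟩
    obtain ⟨c, h1, h2⟩ := nx_prev e h
    obtain ⟨c', h1', h2'⟩ := nx_prev e h'
    have hc := Sum.inl_injective (e.injective (h2.trans h2'.symm))
    subst hc
    exact ih j c (by omega) h1 h1'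

theorem nx_arrive [Finite K] (a : A) :
    ∃ b, (nx e)^[Nat.card K] (e (Sum.inr a)) = Sum.inr b := by
  rcases hz : (nx e)^[Nat.card K] (e (Sum.inr a)) with k | b
  · exfalso
    have hall : ∀ d i, i + d = Nat.card K → ∃ c, (nx e)^[i] (e (Sum.inr a)) = Sum.inl c := by
      intro d
      induction d with
      | zero =>
        intro i hi
        rw [Nat.add_zero] at hi
        subst hi
        exact ⟨k, hz⟩
      | succ d ih =>
        intro i hi
        obtain ⟨c, hc⟩ := ih (i + 1) (by omega)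
        obtain ⟨c', h1, -⟩ := nx_prev e hc
        exact ⟨c', h1⟩
    have hall' : ∀ i : Fin (Nat.card K + 1), ∃ c, (nx e)^[i.1] (e (Sum.inr a)) = Sum.inl c :=
      fun i => hall (Nat.card K - i.1) i.1 (by have := i.2; omega)
    choose c hc using hall'
    have hinj : Function.Injective c := by
      intro i j hij
      by_contra hne
      rcases Nat.lt_or_gt_of_ne (fun h => hne (Fin.ext h)) with hlt | hlt
      · exact nx_distinct e a i.1 j.1 (c i) hlt (hc i) (by rw [hij]; exact hc j)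
      · exact nx_distinct e a j.1 i.1 (c j) hlt (hc j) (by rw [← hij]; exact hc i)
    have := Nat.card_le_card_of_injective c hinj
    rw [Nat.card_eq_fintype_card, Fintype.card_fin] at this
    omega
  · exact ⟨b, rfl⟩

end trace

/-- an injective homomorphism between the second summands -/
theorem exists_inj_hom [Finite K] (GK : SimpleGraph K) (GA : SimpleGraph A) (GB : SimpleGraph B)
    (e : (GK ⊕g GA) ≃g (GK ⊕g GB)) :
    ∃ T : A → B, Function.Injective T ∧ ∀ a a', GA.Adj a a' → GB.Adj (T a) (T a') := by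
  have h0 : ∀ a : A, ∃ b, (nx e.toEquiv)^[Nat.card K] (e.toEquiv (Sum.inr a)) = Sum.inr b :=
    fun a => nx_arrive e.toEquiv a
  choose T hT using h0
  refine ⟨T, fun a a' h => nx_inj e.toEquiv a a' _ _ (T a) (hT a) (by rw [h]; exact hT a'), ?_⟩
  have hstep : ∀ z w : K ⊕ B, (GK ⊕g GB).Adj z w →
      (GK ⊕g GB).Adj (nx e.toEquiv z) (nx e.toEquiv w) := by
    rintro (z | z) (w | w) h
    · exact e.map_adj_iff.2 (show (GK ⊕g GA).Adj (Sum.inl z) (Sum.inl w) from h)
    · cases h
    · cases h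
    · exact h
  have hit : ∀ (t : ℕ) (z w : K ⊕ B), (GK ⊕g GB).Adj z w →
      (GK ⊕g GB).Adj ((nx e.toEquiv)^[t] z) ((nx e.toEquiv)^[t] w) := by
    intro t
    induction t with
    | zero => exact fun z w h => h
    | succ t ih =>
      intro z w h
      rw [Function.iterate_succ_apply, Function.iterate_succ_apply]
      exact ih _ _ (hstep z w h)
  intro a a' h
  have h1 : (GK ⊕g GB).Adj (e.toEquiv (Sum.inr a)) (e.toEquiv (Sum.inr a')) :=
    e.map_adj_iff.2 (show (GK ⊕g GA).Adj (Sum.inr a) (Sum.inr a') from h)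
  have h2 := hit (Nat.card K) _ _ h1
  rw [hT a, hT a'] at h2
  exact h2

/-- Cancellation. -/
theorem cancel [Finite K] [Finite A] [Finite B] (GK : SimpleGraph K) (GA : SimpleGraph A)
    (GB : SimpleGraph B) (e : (GK ⊕g GA) ≃g (GK ⊕g GB)) : Nonempty (GA ≃g GB) := by
  obtain ⟨T, hT, hTa⟩ := exists_inj_hom GK GA GB e
  obtain ⟨T', hT', hTa'⟩ := exists_inj_hom GK GB GA e.symm
  have hbij : Function.Bijective T :=
    hT.bijective_of_nat_card_le (Nat.card_le_card_of_injective T' hT')
  let EA := {p : A × A // GA.Adj p.1 p.2}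
  let EB := {p : B × B // GB.Adj p.1 p.2}
  let f : EA → EB := fun p => ⟨(T p.1.1, T p.1.2), hTa _ _ p.2⟩
  let f' : EB → EA := fun p => ⟨(T' p.1.1, T' p.1.2), hTa' _ _ p.2⟩
  have hf : Function.Injective f := by
    rintro ⟨⟨a, b⟩, h⟩ ⟨⟨c, d⟩, h'⟩ hh
    have h1 := congrArg (fun p : EB => p.1.1) hh
    have h2 := congrArg (fun p : EB => p.1.2) hh
    have h3 := hT h1
    have h4 := hT h2
    simp only at h3 h4
    subst h3 h4
    rfl
  have hf' : Function.Injective f' := by
    rintro ⟨⟨a, b⟩, h⟩ ⟨⟨c, d⟩, h'⟩ hh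
    have h1 := congrArg (fun p : EA => p.1.1) hh
    have h2 := congrArg (fun p : EA => p.1.2) hh
    have h3 := hT' h1
    have h4 := hT' h2
    simp only at h3 h4
    subst h3 h4
    rfl
  have hfb : Function.Bijective f :=
    hf.bijective_of_nat_card_le (Nat.card_le_card_of_injective f' hf')
  refine ⟨⟨Equiv.ofBijective T hbij, ?_⟩⟩
  intro a a'
  change GB.Adj (T a) (T a') ↔ GA.Adj a a'
  constructor
  · intro h
    obtain ⟨p, hp⟩ := hfb.2 ⟨(T a, T a'), h⟩
    have h1 := congrArg (fun p : EB => p.1.1) hp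
    have h2 := congrArg (fun p : EB => p.1.2) hp
    have h3 : p.1.1 = a := hT h1
    have h4 : p.1.2 = a' := hT h2
    have h5 := p.2
    rw [h3, h4] at h5
    exact h5
  · exact fun h => hTa _ _ h

/-- Composition of the game with a fixed summand. -/
theorem Bf.sum {W : Type} (GK : SimpleGraph K) {GA : SimpleGraph A} {H : SimpleGraph W} :
    ∀ {k : ℕ} {R : A → W → Prop}, Bf GA H k R →
      Bf (GK ⊕g GA) (GK ⊕g H) k (fun z w => (∃ x, z = Sum.inl x ∧ w = Sum.inl x) ∨
        ∃ a b, z = Sum.inr a ∧ w = Sum.inr b ∧ R a b) := by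
  have hA : ∀ {R : A → W → Prop}, Atom GA H R →
      Atom (GK ⊕g GA) (GK ⊕g H) (fun z w => (∃ x, z = Sum.inl x ∧ w = Sum.inl x) ∨
        ∃ a b, z = Sum.inr a ∧ w = Sum.inr b ∧ R a b) := by
    rintro R h z w z' w' (⟨x, rfl, rfl⟩ | ⟨a, b, rfl, rfl, hab⟩)
      (⟨x', rfl, rfl⟩ | ⟨a', b', rfl, rfl, hab'⟩)
    · simp
    · simp
    · simp
    · obtain ⟨e1, e2⟩ := h _ _ _ _ hab hab'
      exact ⟨by simpa using e1, by simpa using e2⟩
  intro k
  induction k with
  | zero => exact fun h => hA h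
  | succ k ih =>
    intro R h
    refine ⟨hA h.1, ?_, ?_⟩
    · rintro (x | a)
      · refine ⟨Sum.inl x, (ih h.down).mono ?_⟩
        rintro z w (h1 | ⟨rfl, rfl⟩)
        · exact h1
        · exact Or.inl ⟨x, rfl, rfl⟩
      · obtain ⟨b, hb⟩ := h.2.1 a
        refine ⟨Sum.inr b, (ih hb).mono ?_⟩
        rintro z w ((h1 | ⟨a', b', rfl, rfl, h1⟩) | ⟨rfl, rfl⟩)
        · exact Or.inl h1
        · exact Or.inr ⟨a', b', rfl, rfl, Or.inl h1⟩
        · exact Or.inr ⟨a, b, rfl, rfl, Or.inr ⟨rfl, rfl⟩⟩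
    · rintro (x | b)
      · refine ⟨Sum.inl x, (ih h.down).mono ?_⟩
        rintro z w (h1 | ⟨rfl, rfl⟩)
        · exact h1
        · exact Or.inl ⟨x, rfl, rfl⟩
      · obtain ⟨a, ha⟩ := h.2.2 b
        refine ⟨Sum.inr a, (ih ha).mono ?_⟩
        rintro z w ((h1 | ⟨a', b', rfl, rfl, h1⟩) | ⟨rfl, rfl⟩)
        · exact Or.inl h1
        · exact Or.inr ⟨a', b', rfl, rfl, Or.inl h1⟩
        · exact Or.inr ⟨a, b, rfl, rfl, Or.inr ⟨rfl, rfl⟩⟩

/-- A summand is defined in the same depth. -/
theorem Dep.summand [Finite K] [Finite A] {GK : SimpleGraph K} {GA : SimpleGraph A} {k : ℕ}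
    (h : Dep k (GK ⊕g GA)) : Dep k GA := by
  intro W _ _ H hH
  obtain ⟨e⟩ := h (K ⊕ W) (GK ⊕g H) ((hH.sum GK).mono (fun _ _ h => h.elim))
  exact cancel GK GA H e

/-- If an optimal graph splits off a small part, one vertex less is possible. -/
theorem split_step {a b C : ℕ} (ha : 1 ≤ a) (hb : 1 ≤ b) (G₁ : SimpleGraph (Fin a))
    (G₂ : SimpleGraph (Fin b))
    (h : logicalDepth (G₁ ⊕g G₂) = q (a + b) ∨ logicalDepth (G₁ ⊕g G₂)ᶜ = q (a + b))
    (hs : a ≤ tower (q (a + b) + C)) : q (a + b - 1) ≤ q (a + b) + C + 8 := by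
  have h1 : Dep (q (a + b)) (G₁ ⊕g G₂) := by
    rcases h with h | h
    · exact (logicalDepth_le_iff _ _).1 h.le
    · have := ((logicalDepth_le_iff _ _).1 h.le).compl
      rwa [compl_compl] at this
  have h2 : q b ≤ q (a + b) := q_le_iff.2 ⟨G₂, h1.summand⟩
  rcases Nat.lt_or_ge a 3 with h3 | h3
  · have : a = 1 ∨ a = 2 := by omega
    rcases this with rfl | rfl
    · rw [show 1 + b - 1 = b by omega]
      omega
    · have h4 := q_succ hb
      rw [show 2 + b - 1 = b + 1 by omega]
      omega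
  · have h4 := q_hub (m := b) (n := a - 2) hb (by omega)
    rw [show b + (a - 2) + 1 = a + b - 1 by omega] at h4
    have h5 := q_le_tower (h := q (a + b) + C) (m := a - 2) (by omega) (by omega)
    omega

end Pool.Agent.Lib.MP_4964e1_lc
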