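import Mathlib

/-!
The succinctness function of finite graphs (problem MP_4964e1_lc): definitions.
-/

namespace Pool.Agent.Lib.MP_4964e1_lc

open FirstOrder FirstOrder.Language

/-- Quantifier depth of a first order formula in the language of graphs. -/
def qdepth : ∀ {m : ℕ}, Language.graph.BoundedFormula Empty m → ℕ
  | _, .falsum => 0
  | _, .equal _ _ => 0
  | _, .rel _ _ => 0
  | _, .imp f g => max (qdepth f) (qdepth g)
  | _, .all f => qdepth f + 1

/-- The sentence `φ` is true on the graph `G`. -/
def Holds {V : Type} (G : SimpleGraph V) (φ : Language.graph.Sentence) : Prop :=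
  @Sentence.Realize Language.graph V G.structure φ

/-- The sentence `φ` defines `G`: it is true on `G` and false on every finite non-empty
graph which is not isomorphic to `G`. -/
def Defines (φ : Language.graph.Sentence) {V : Type} (G : SimpleGraph V) : Prop :=
  Holds G φ ∧ ∀ (W : Type) [Finite W] [Nonempty W] (H : SimpleGraph W),
    Holds H φ → Nonempty (G ≃g H)

/-- The logical depth `D(G)`: the smallest quantifier depth of a sentence which defines `G`. -/
noncomputable def logicalDepth {V : Type} (G : SimpleGraph V) : ℕ :=
  sInf {d | ∃ φ : Language.graph.Sentence, Defines φ G ∧ qdepth φ = d}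

/-- The succinctness function: the smallest logical depth of a graph with `n` vertices. -/
noncomputable def q (n : ℕ) : ℕ :=
  sInf {d | ∃ G : SimpleGraph (Fin n), logicalDepth G = d}

end Pool.Agent.Lib.MP_4964e1_lc
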