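import Pool.Agent.Lib.MP_4964e1_lc.Game71

/-!
The hub (idea of helper86): a vertex joined to all of `G₁` and to nothing of `G₂`.
It costs one quantifier.
-/

namespace Pool.Agent.Lib.MP_4964e1_lc

open SimpleGraph

variable {V W U V₁ V₂ : Type}

/-- Relativisation to a part recognised by adjacency to (or distinctness from) a chosen vertex:
it costs nothing. -/
theorem relativise0 {G : SimpleGraph V} {H : SimpleGraph U} {H' : SimpleGraph W} (f : V → U)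
    (hf : Function.Injective f) (hadj : ∀ x y, H.Adj (f x) (f y) ↔ G.Adj x y) (a : U) (b : W)
    (Q : U → Prop) (P : Set W) (hQ : ∀ c, Q c ↔ c ∈ Set.range f)
    (hPQ : ∀ (R : U → W → Prop), Atom H H' R → R a b →
      ∀ c d, R c d → (Q c ↔ d ∈ P)) :
    ∀ (j : ℕ) (R : V → P → Prop),
      Bf H H' j (fun u w => (u = a ∧ w = b) ∨ ∃ x z, R x z ∧ u = f x ∧ w = z.1) →
      Bf G (H'.induce P) j R := by
  have hA : ∀ (j : ℕ) (R : V → P → Prop),
      Bf H H' j (fun u w => (u = a ∧ w = b) ∨ ∃ x z, R x z ∧ u = f x ∧ w = z.1) →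
      Atom G (H'.induce P) R := by
    intro j R h x z x' z' h1 h2
    obtain ⟨e1, e2⟩ := h.atom (f x) z.1 (f x') z'.1 (Or.inr ⟨x, z, h1, rfl, rfl⟩)
      (Or.inr ⟨x', z', h2, rfl, rfl⟩)
    refine ⟨?_, ?_⟩
    · rw [← hf.eq_iff, e1, Subtype.ext_iff]
    · rw [← hadj, e2]
      exact Iff.rfl
  intro j
  induction j with
  | zero => exact fun R h => hA 0 R h
  | succ j ih =>
    intro R h
    refine ⟨hA _ R h, fun x => ?_, fun z => ?_⟩
    · obtain ⟨w, hw⟩ := h.2.1 (f x)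
      have hwP : w ∈ P := (hPQ _ hw.atom (Or.inl (Or.inl ⟨rfl, rfl⟩)) (f x) w
        (Or.inr ⟨rfl, rfl⟩)).1 ((hQ _).2 ⟨x, rfl⟩)
      refine ⟨⟨w, hwP⟩, ih _ (hw.mono ?_)⟩
      rintro u w' (h1 | ⟨x', z', (h2 | ⟨rfl, rfl⟩), rfl, rfl⟩)
      · exact Or.inl (Or.inl h1)
      · exact Or.inl (Or.inr ⟨x', z', h2, rfl, rfl⟩)
      · exact Or.inr ⟨rfl, rfl⟩
    · obtain ⟨c, hc⟩ := h.2.2 z.1
      have hcQ : Q c := (hPQ _ hc.atom (Or.inl (Or.inl ⟨rfl, rfl⟩)) c z.1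
        (Or.inr ⟨rfl, rfl⟩)).2 z.2
      obtain ⟨x, rfl⟩ := (hQ c).1 hcQ
      refine ⟨x, ih _ (hc.mono ?_)⟩
      rintro u w' (h1 | ⟨x', z', (h2 | ⟨rfl, rfl⟩), rfl, rfl⟩)
      · exact Or.inl (Or.inl h1)
      · exact Or.inl (Or.inr ⟨x', z', h2, rfl, rfl⟩)
      · exact Or.inr ⟨rfl, rfl⟩

/-- Adjacency of the hub graph. -/
def hubAdj (G₁ : SimpleGraph V₁) (G₂ : SimpleGraph V₂) :
    Option (V₁ ⊕ V₂) → Option (V₁ ⊕ V₂) → Prop
  | none, some (Sum.inl _) => True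
  | some (Sum.inl _), none => True
  | some (Sum.inl x), some (Sum.inl y) => G₁.Adj x y
  | some (Sum.inr x), some (Sum.inr y) => G₂.Adj x y
  | _, _ => False

/-- The hub graph: a vertex joined to all of `G₁` and to nothing of `G₂`. -/
def hub (G₁ : SimpleGraph V₁) (G₂ : SimpleGraph V₂) : SimpleGraph (Option (V₁ ⊕ V₂)) where
  Adj := hubAdj G₁ G₂
  symm := ⟨by
    rintro (_ | (x | x)) (_ | (y | y)) h
    all_goals first
      | exact h
      | exact G₁.adj_symm h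
      | exact G₂.adj_symm h⟩
  loopless := ⟨by
    rintro (_ | (x | x)) h
    · exact h
    · exact G₁.loopless.irrefl _ h
    · exact G₂.loopless.irrefl _ h⟩

theorem dep_hub [Nonempty V₂] (G₁ : SimpleGraph V₁) (G₂ : SimpleGraph V₂)
    {k : ℕ} (hk : 2 ≤ k) (h1 : Nonempty V₁ → Dep k G₁) (h2 : Dep k G₂) :
    Dep (k + 1) (hub G₁ G₂) := by
  intro W _ _ H' hH
  obtain ⟨b, hb⟩ := hH.2.1 none
  obtain ⟨k, rfl⟩ : ∃ k', k = k' + 2 := ⟨k - 2, by omega⟩
  let P : Set W := {z | H'.Adj b z}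
  let Q' : Set W := {z | ¬ H'.Adj b z ∧ b ≠ z}
  have key : ∀ (R : Option (V₁ ⊕ V₂) → W → Prop), Atom (hub G₁ G₂) H' R → R none b →
      ∀ c d, R c d → (((hub G₁ G₂).Adj none c ↔ d ∈ P) ∧
        ((¬ (hub G₁ G₂).Adj none c ∧ none ≠ c) ↔ d ∈ Q')) := by
    intro R hR hr c d hcd
    obtain ⟨e1, e2⟩ := hR none b c d hr hcd
    exact ⟨e2, and_congr (not_congr e2) (not_congr e1)⟩
  have hq1 : ∀ c, (hub G₁ G₂).Adj none c ↔
      c ∈ Set.range (fun x : V₁ => (some (Sum.inl x) : Option (V₁ ⊕ V₂))) := by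
    rintro (_ | (x | x))
    · exact ⟨fun h => h.elim, fun ⟨y, hy⟩ => by cases hy⟩
    · exact ⟨fun _ => ⟨x, rfl⟩, fun _ => trivial⟩
    · exact ⟨fun h => h.elim, fun ⟨y, hy⟩ => by cases hy⟩
  have hq2 : ∀ c, (¬ (hub G₁ G₂).Adj none c ∧ none ≠ c) ↔
      c ∈ Set.range (fun x : V₂ => (some (Sum.inr x) : Option (V₁ ⊕ V₂))) := by
    rintro (_ | (x | x))
    · exact ⟨fun h => (h.2 rfl).elim, fun ⟨y, hy⟩ => by cases hy⟩
    · exact ⟨fun h => (h.1 trivial).elim, fun ⟨y, hy⟩ => by cases hy⟩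
    · exact ⟨fun _ => ⟨x, rfl⟩, fun _ => ⟨fun h => h, by simp⟩⟩
  -- the two parts
  have hb1 : Bf G₁ (H'.induce P) (k + 2) emp := by
    refine relativise0 (fun x : V₁ => (some (Sum.inl x) : Option (V₁ ⊕ V₂)))
      (fun x y h => by simpa using h) (fun x y => Iff.rfl) none b
      (fun c => (hub G₁ G₂).Adj none c) P hq1 (fun R h hr c d hcd => (key R h hr c d hcd).1)
      (k + 2) emp (hb.mono ?_)
    rintro u w (⟨rfl, rfl⟩ | ⟨_, _, h, _⟩)
    · exact Or.inr ⟨rfl, rfl⟩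
    · exact h.elim
  have hb2 : Bf G₂ (H'.induce Q') (k + 2) emp := by
    refine relativise0 (fun x : V₂ => (some (Sum.inr x) : Option (V₁ ⊕ V₂)))
      (fun x y h => by simpa using h) (fun x y => Iff.rfl) none b
      (fun c => ¬ (hub G₁ G₂).Adj none c ∧ none ≠ c) Q' hq2
      (fun R h hr c d hcd => (key R h hr c d hcd).2) (k + 2) emp (hb.mono ?_)
    rintro u w (⟨rfl, rfl⟩ | ⟨_, _, h, _⟩)
    · exact Or.inr ⟨rfl, rfl⟩
    · exact h.elim
  have hne2 : Nonempty Q' := by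
    obtain ⟨y₀⟩ := (inferInstance : Nonempty V₂)
    obtain ⟨z, hz⟩ := hb.2.1 (some (Sum.inr y₀))
    exact ⟨⟨z, (key _ hz.atom (Or.inl (Or.inr ⟨rfl, rfl⟩)) (some (Sum.inr y₀)) z
      (Or.inr ⟨rfl, rfl⟩)).2.1 ((hq2 _).2 ⟨y₀, rfl⟩)⟩⟩
  have hno : ∀ z ∈ P, ∀ w ∈ Q', ¬ H'.Adj z w := by
    intro z hz w hw hadj
    obtain ⟨c, hc⟩ := hb.2.2 z
    obtain ⟨d, hd⟩ := hc.2.2 w
    have h3 := (key _ hd.atom (Or.inl (Or.inl (Or.inr ⟨rfl, rfl⟩))) c z
      (Or.inl (Or.inr ⟨rfl, rfl⟩))).1.2 hz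
    have h4 := (key _ hd.atom (Or.inl (Or.inl (Or.inr ⟨rfl, rfl⟩))) d w
      (Or.inr ⟨rfl, rfl⟩)).2.2 hw
    have h5 := (hd.atom c z d w (Or.inl (Or.inr ⟨rfl, rfl⟩)) (Or.inr ⟨rfl, rfl⟩)).2.2 hadj
    obtain ⟨c', rfl⟩ := (hq1 _).1 h3
    obtain ⟨d', rfl⟩ := (hq2 _).1 h4
    exact h5
  have e1 : Nonempty (G₁ ≃g H'.induce P) := by
    by_cases hV : Nonempty V₁
    · have hne1 : Nonempty P := by
        obtain ⟨x₀⟩ := hV
        obtain ⟨z, hz⟩ := hb.2.1 (some (Sum.inl x₀))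
        exact ⟨⟨z, (key _ hz.atom (Or.inl (Or.inr ⟨rfl, rfl⟩)) (some (Sum.inl x₀)) z
          (Or.inr ⟨rfl, rfl⟩)).1.1 ((hq1 _).2 ⟨x₀, rfl⟩)⟩⟩
      exact h1 hV P (H'.induce P) hb1
    · have hE : IsEmpty V₁ := not_nonempty_iff.1 hV
      have hEP : IsEmpty P := by
        refine ⟨fun z => ?_⟩
        obtain ⟨c, hc⟩ := hb.2.2 z.1
        have h3 := (key _ hc.atom (Or.inl (Or.inr ⟨rfl, rfl⟩)) c z.1
          (Or.inr ⟨rfl, rfl⟩)).1.2 z.2
        obtain ⟨c', _⟩ := (hq1 _).1 h3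
        exact hE.elim c'
      exact ⟨⟨Equiv.equivOfIsEmpty _ _, fun {a} => (hE.elim a)⟩⟩
  obtain ⟨e1⟩ := e1
  obtain ⟨e2⟩ := h2 (Q' : Set W) (H'.induce Q') hb2
  classical
  -- the map
  let F : Option (V₁ ⊕ V₂) → W := fun c => match c with
    | none => b
    | some (Sum.inl x) => (e1 x : W)
    | some (Sum.inr x) => (e2 x : W)
  have hinj : Function.Injective F := by
    rintro (_ | (x | x)) (_ | (y | y)) h
    · rfl
    · exfalso
      have h3 : H'.Adj b (e1 y : W) := (e1 y).2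
      change b = (e1 y : W) at h
      rw [← h] at h3
      exact H'.loopless.irrefl _ h3
    · exact absurd h (e2 y).2.2
    · exfalso
      have h3 : H'.Adj b (e1 x : W) := (e1 x).2
      change (e1 x : W) = b at h
      rw [h] at h3
      exact H'.loopless.irrefl _ h3
    · have h3 : (e1 x : W) = (e1 y : W) := h
      rw [e1.injective (Subtype.ext h3)]
    · exfalso
      have h3 : H'.Adj b (e1 x : W) := (e1 x).2
      change (e1 x : W) = (e2 y : W) at h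
      rw [h] at h3
      exact (e2 y).2.1 h3
    · exact absurd h.symm (e2 x).2.2
    · exfalso
      have h3 : H'.Adj b (e1 y : W) := (e1 y).2
      change (e2 x : W) = (e1 y : W) at h
      rw [← h] at h3
      exact (e2 x).2.1 h3
    · have h3 : (e2 x : W) = (e2 y : W) := h
      rw [e2.injective (Subtype.ext h3)]
  have hsurj : Function.Surjective F := by
    intro z
    by_cases hzb : b = z
    · exact ⟨none, hzb⟩
    · by_cases hz : H'.Adj b z
      · obtain ⟨x, hx⟩ := e1.surjective ⟨z, hz⟩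
        exact ⟨some (Sum.inl x), congrArg Subtype.val hx⟩
      · obtain ⟨x, hx⟩ := e2.surjective ⟨z, ⟨hz, hzb⟩⟩
        exact ⟨some (Sum.inr x), congrArg Subtype.val hx⟩
  refine ⟨⟨Equiv.ofBijective F ⟨hinj, hsurj⟩, ?_⟩⟩
  rintro (_ | (x | x)) (_ | (y | y))
  · exact ⟨fun h => (H'.loopless.irrefl _ h).elim, fun h => h.elim⟩
  · exact ⟨fun _ => trivial, fun _ => (e1 y).2⟩
  · exact ⟨fun h => ((e2 y).2.1 h).elim, fun h => h.elim⟩
  · exact ⟨fun _ => trivial, fun _ => (e1 x).2.symm⟩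
  · exact e1.map_adj_iff
  · exact ⟨fun h => (hno _ (e1 x).2 _ (e2 y).2 h).elim, fun h => h.elim⟩
  · exact ⟨fun h => ((e2 x).2.1 h.symm).elim, fun h => h.elim⟩
  · exact ⟨fun h => (hno _ (e1 y).2 _ (e2 x).2 h.symm).elim, fun h => h.elim⟩
  · exact e2.map_adj_iff

/-- Nothing is defined in depth less than two. -/
theorem Dep.two_le [Finite V] [Nonempty V] {G : SimpleGraph V} {k : ℕ} (h : Dep k G) :
    2 ≤ k := by
  by_contra hk
  have h1 : Dep 1 G := h.mono (by omega)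
  have h2 : ∀ (X : Type) [Nonempty X] (K : SimpleGraph X), Bf G K 1 emp := by
    intro X _ K
    have hA : ∀ x y, Atom G K (ins emp x y) := by
      rintro x y a b c d (h3 | ⟨rfl, rfl⟩) (h4 | ⟨rfl, rfl⟩)
      · exact h3.elim
      · exact h3.elim
      · exact h4.elim
      · exact ⟨by simp, by simp⟩
    refine ⟨fun a b c d h3 => h3.elim, fun x => ⟨Classical.arbitrary X, hA _ _⟩,
      fun y => ⟨Classical.arbitrary V, hA _ _⟩⟩
  obtain ⟨e⟩ := h1 (Fin 1) ⊥ (h2 _ _)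
  obtain ⟨e'⟩ := h1 (Fin 2) ⊥ (h2 _ _)
  have h3 := Nat.card_congr (e.symm.toEquiv.trans e'.toEquiv)
  simp at h3

theorem dep_one : Dep 2 (⊥ : SimpleGraph (Fin 1)) := by
  intro W _ _ H h
  have hs : Subsingleton W := by
    refine ⟨fun a b => ?_⟩
    obtain ⟨x, hx⟩ := h.2.2 a
    obtain ⟨y, hy⟩ := hx.2.2 b
    exact ((hy x a y b (Or.inl (Or.inr ⟨rfl, rfl⟩)) (Or.inr ⟨rfl, rfl⟩)).1).1
      (Subsingleton.elim _ _)
  obtain ⟨w⟩ := (inferInstance : Nonempty W)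
  refine ⟨⟨⟨fun _ => w, fun _ => 0, fun _ => Subsingleton.elim _ _,
    fun _ => Subsingleton.elim _ _⟩, ?_⟩⟩
  intro a b
  constructor
  · intro h1
    exact (H.loopless.irrefl _ h1).elim
  · intro h1
    exact h1.elim

/-- The number `n` is reached in depth `k`. -/
def Reach (n k : ℕ) : Prop := ∃ G : SimpleGraph (Fin n), Dep k G

theorem Reach.mono {n j k : ℕ} (h : Reach n j) (hjk : j ≤ k) : Reach n k := by
  obtain ⟨G, hG⟩ := h
  exact ⟨G, hG.mono hjk⟩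

theorem reach_of_card [Fintype V] {n k : ℕ} (hn : Fintype.card V = n) (G : SimpleGraph V)
    (h : Dep k G) : Reach n k := ⟨G.overFin hn, h.iso (G.overFinIso hn)⟩

theorem Reach.two_le {n k : ℕ} (hn : 1 ≤ n) (h : Reach n k) : 2 ≤ k := by
  obtain ⟨G, hG⟩ := h
  have : Nonempty (Fin n) := ⟨⟨0, hn⟩⟩
  exact hG.two_le

theorem reach_hub {m n k : ℕ} (hm : 1 ≤ m → Reach m k) (hn : 1 ≤ n) (h : Reach n k) :
    Reach (m + n + 1) (k + 1) := by
  have hk := h.two_le hn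
  obtain ⟨G₂, h2⟩ := h
  have : Nonempty (Fin n) := ⟨⟨0, hn⟩⟩
  rcases Nat.eq_zero_or_pos m with rfl | hm0
  · refine reach_of_card (V := Option (Fin 0 ⊕ Fin n)) (by simp) (hub ⊥ G₂)
      (dep_hub _ _ hk (fun ⟨x⟩ => x.elim0) h2)
  · obtain ⟨G₁, h1⟩ := hm hm0
    refine reach_of_card (V := Option (Fin m ⊕ Fin n)) (by simp) (hub G₁ G₂)
      (dep_hub _ _ hk (fun _ => h1) h2)

/-- Playing all vertices of `G`. -/
theorem exists_total {G : SimpleGraph V} {H : SimpleGraph W} (j : ℕ) :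
    ∀ (l : List V) (R : V → W → Prop), Bf G H (l.length + j) R →
      ∃ R' : V → W → Prop, (∀ a b, R a b → R' a b) ∧ Bf G H j R' ∧ ∀ x ∈ l, ∃ y, R' x y := by
  intro l
  induction l with
  | nil => exact fun R h => ⟨R, fun _ _ h => h, by simpa using h, by simp⟩
  | cons x l ih =>
    intro R h
    have h' : Bf G H (l.length + j + 1) R := by
      have e : (x :: l).length + j = l.length + j + 1 := by
        simp only [List.length_cons]
        omega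
      rwa [e] at h
    obtain ⟨y, hy⟩ := h'.2.1 x
    obtain ⟨R', h1, h2, h3⟩ := ih _ hy
    refine ⟨R', fun a b hab => h1 _ _ (Or.inl hab), h2, ?_⟩
    intro z hz
    rcases List.mem_cons.1 hz with rfl | hz
    · exact ⟨y, h1 _ _ (Or.inr ⟨rfl, rfl⟩)⟩
    · exact h3 z hz

/-- Every finite graph is defined by a sentence. -/
theorem exists_dep [Fintype V] (G : SimpleGraph V) : Dep (Fintype.card V + 1) G := by
  classical
  intro W _ _ H hH
  have h0 : Bf G H ((Finset.univ : Finset V).toList.length + 1) emp := by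
    rwa [Finset.length_toList]
  obtain ⟨R, -, h2, h3⟩ := exists_total 1 _ _ h0
  have h4 : ∀ x, ∃ y, R x y := fun x => h3 x (by simp)
  choose f hf using h4
  have hinj : Function.Injective f := fun x y h =>
    (h2.atom _ _ _ _ (hf x) (hf y)).1.2 h
  have hsurj : Function.Surjective f := by
    intro w
    obtain ⟨x, hx⟩ := h2.2.2 w
    exact ⟨x, ((hx x (f x) x w (Or.inl (hf x)) (Or.inr ⟨rfl, rfl⟩)).1).1 rfl⟩
  exact ⟨⟨Equiv.ofBijective f ⟨hinj, hsurj⟩, fun {a b} =>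
    (h2.atom _ _ _ _ (hf a) (hf b)).2.symm⟩⟩

theorem logicalDepth_le_iff [Fintype V] (G : SimpleGraph V) (k : ℕ) :
    logicalDepth G ≤ k ↔ Dep k G := by
  rw [← exists_defines_iff]
  constructor
  · intro h
    have hne : {d | ∃ φ : FirstOrder.Language.graph.Sentence, Defines φ G ∧ qdepth φ = d}.Nonempty := by
      obtain ⟨φ, h1, -⟩ := (exists_defines_iff G _).2 (exists_dep G)
      exact ⟨_, φ, h1, rfl⟩
    obtain ⟨φ, h1, h2⟩ := Nat.sInf_mem hne
    exact ⟨φ, h1, h2 ▸ h⟩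
  · rintro ⟨φ, h1, h2⟩
    have h3 : logicalDepth G ≤ qdepth φ := Nat.sInf_le ⟨φ, h1, rfl⟩
    exact h3.trans h2

/-- `q n ≤ k` iff `n` is reached in depth `k`. -/
theorem q_le_iff {n k : ℕ} : q n ≤ k ↔ Reach n k := by
  constructor
  · intro h
    have hne : {d | ∃ G : SimpleGraph (Fin n), logicalDepth G = d}.Nonempty := ⟨_, ⊥, rfl⟩
    obtain ⟨G, h1⟩ := Nat.sInf_mem hne
    exact ⟨G, (logicalDepth_le_iff G k).1 (h1 ▸ h)⟩
  · rintro ⟨G, hG⟩
    have h3 : q n ≤ logicalDepth G := Nat.sInf_le ⟨G, rfl⟩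
    exact h3.trans ((logicalDepth_le_iff G k).2 hG)

theorem q_hub {m n : ℕ} (_ : 1 ≤ m) (hn : 1 ≤ n) : q (m + n + 1) ≤ max (q m) (q n) + 1 := by
  rw [q_le_iff]
  exact reach_hub (fun _ => (q_le_iff.1 le_rfl).mono (le_max_left _ _)) hn
    ((q_le_iff.1 le_rfl).mono (le_max_right _ _))

theorem q_succ {n : ℕ} (hn : 1 ≤ n) : q (n + 1) ≤ q n + 1 := by
  rw [q_le_iff]
  have := reach_hub (m := 0) (fun h => absurd h (by norm_num)) hn (q_le_iff.1 le_rfl)
  rwa [zero_add] at this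

end Pool.Agent.Lib.MP_4964e1_lc
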