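import Pool.Agent.Lib.MP_4964e1_lc.Num86
import Pool.Agent.Lib.MP_4964e1_lc.Hub71

/-! Effective count of the large drops (MP_4964e1). -/

namespace Pool.Agent.Lib.MP_4964e1_lc

open Finset

theorem q_one : q 1 = 2 := by
  apply le_antisymm
  · exact q_le_iff.2 ⟨⊥, dep_one⟩
  · exact Reach.two_le le_rfl (q_le_iff.1 le_rfl)

theorem two_le_q {n : ℕ} (hn : 1 ≤ n) : 2 ≤ q n :=
  Reach.two_le hn (q_le_iff.1 le_rfl)

theorem q_le_log {n : ℕ} (hn : 1 ≤ n) : q n ≤ Nat.log 2 n + 2 := by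
  have := MP_4964e1.N86.growth q (fun m n hm hn => q_hub hm hn) (fun n hn => q_succ hn) n hn
  rwa [q_one] at this

/-- one top level -/
theorem top_level (C l N : ℕ) (hC : 1 ≤ C) :
    ((Finset.Icc 1 N).filter (fun n => q (n + 1) + C < q n ∧ q n = l)).card
      ≤ (N + 1) / 2 ^ (l - 3) + 1 := by
  have h := MP_4964e1.N86.gapset
    ((Finset.Icc 1 N).filter (fun n => q (n + 1) + C < q n ∧ q n = l)) (N + 1) 1 (2 ^ (l - 3))
    le_rfl Nat.one_le_two_pow ?_ ?_
  · simpa using h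
  · intro n hn
    have := Finset.mem_Icc.1 (Finset.mem_filter.1 hn).1
    omega
  · intro n hn m hm hnm
    obtain ⟨hn0, hn1, hn2⟩ := Finset.mem_filter.1 hn
    obtain ⟨_, hm1, hm2⟩ := Finset.mem_filter.1 hm
    have hn3 := Finset.mem_Icc.1 hn0
    right
    rcases Nat.lt_or_ge (n + 2) m with h3 | h3
    · have e : m = (n + 1) + (m - n - 2) + 1 := by omega
      have hb : 1 ≤ m - n - 2 := by omega
      have hq := q_hub (m := n + 1) (n := m - n - 2) (by omega) hb
      rw [← e, hm2] at hq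
      have hqb : l ≤ q (m - n - 2) + 1 := by
        rcases le_total (q (n + 1)) (q (m - n - 2)) with h4 | h4
        · rw [max_eq_right h4] at hq
          exact hq
        · rw [max_eq_left h4] at hq
          omega
      have hg := q_le_log hb
      have hl : l - 3 ≤ Nat.log 2 (m - n - 2) := by omega
      have hp := Nat.pow_le_of_le_log (by omega) hl
      omega
    · exfalso
      rcases Nat.eq_or_lt_of_le h3 with h4 | h4
      · have := q_succ (n := n + 1) (by omega)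
        rw [← show m = n + 1 + 1 by omega] at this
        omega
      · have h5 : m = n + 1 := by omega
        rw [h5] at hm2
        omega

/-- effective count -/
theorem eff86 (C N : ℕ) (hC : 1 ≤ C) :
    ((((Finset.Icc 1 N).filter (fun n => q (n + 1) + C < q n)).card : ℕ) : ℝ)
      ≤ 2 * (N + 1) / 2 ^ C + Nat.log 2 N := by
  classical
  have hsub : (Finset.Icc 1 N).filter (fun n => q (n + 1) + C < q n)
      ⊆ (Finset.Ico (C + 3) (Nat.log 2 N + 3)).biUnion (fun l =>
        (Finset.Icc 1 N).filter (fun n => q (n + 1) + C < q n ∧ q n = l)) := by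
    intro n hn
    obtain ⟨hn0, hn1⟩ := Finset.mem_filter.1 hn
    have hn3 := Finset.mem_Icc.1 hn0
    rw [Finset.mem_biUnion]
    refine ⟨q n, ?_, Finset.mem_filter.2 ⟨hn0, hn1, rfl⟩⟩
    rw [Finset.mem_Ico]
    have h2 := two_le_q (n := n + 1) (by omega)
    have h4 := q_le_log hn3.1
    have h5 : Nat.log 2 n ≤ Nat.log 2 N := Nat.log_mono_right hn3.2
    omega
  have hcard := (Finset.card_le_card hsub).trans Finset.card_biUnion_le
  have hcard2 : ((Finset.Icc 1 N).filter (fun n => q (n + 1) + C < q n)).card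
      ≤ ∑ l ∈ Finset.Ico (C + 3) (Nat.log 2 N + 3), ((N + 1) / 2 ^ (l - 3) + 1) :=
    hcard.trans (Finset.sum_le_sum fun l _ => top_level C l N hC)
  rcases Nat.lt_or_ge (Nat.log 2 N) C with hlt | hge
  · rw [Finset.Ico_eq_empty (by omega)] at hcard2
    simp only [Finset.sum_empty, Nat.le_zero] at hcard2
    rw [hcard2]
    have : (0 : ℝ) ≤ 2 * (N + 1) / 2 ^ C + Nat.log 2 N := by positivity
    simpa using this
  · have hreal : ((((Finset.Icc 1 N).filter (fun n => q (n + 1) + C < q n)).card : ℕ) : ℝ)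
        ≤ ∑ l ∈ Finset.Ico (C + 3) (Nat.log 2 N + 3), (((N : ℝ) + 1) * (16 * (1 / 2) ^ (l + 1)) + 1) := by
      refine le_trans (Nat.cast_le.2 hcard2) ?_
      rw [Nat.cast_sum]
      refine Finset.sum_le_sum fun l hl => ?_
      rw [Finset.mem_Ico] at hl
      push_cast
      have d1 : (((N + 1) / 2 ^ (l - 3) : ℕ) : ℝ) ≤ ((N + 1 : ℕ) : ℝ) / ((2 ^ (l - 3) : ℕ) : ℝ) :=
        Nat.cast_div_le
      have d2 : ((N + 1 : ℕ) : ℝ) / ((2 ^ (l - 3) : ℕ) : ℝ)
          = ((N : ℝ) + 1) * (16 * (1 / 2) ^ (l + 1)) := by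
        have e : l + 1 = (l - 3) + 4 := by omega
        rw [e, pow_add]
        push_cast
        rw [div_eq_mul_inv, ← inv_pow, one_div]
        ring
      rw [d2] at d1
      linarith
    have hg := MP_4964e1.N86.geo (C + 3) (Nat.log 2 N + 3)
    rw [Finset.sum_add_distrib, ← Finset.mul_sum, ← Finset.mul_sum, Finset.sum_const,
      Nat.card_Ico, nsmul_eq_mul, mul_one] at hreal
    have hN : (0 : ℝ) ≤ (N : ℝ) + 1 := by positivity
    have e1 : ((N : ℝ) + 1) * (16 * ∑ l ∈ Finset.Ico (C + 3) (Nat.log 2 N + 3), (1 / 2 : ℝ) ^ (l + 1))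
        ≤ 2 * (N + 1) / 2 ^ C := by
      have e2 : (16 : ℝ) * ∑ l ∈ Finset.Ico (C + 3) (Nat.log 2 N + 3), (1 / 2 : ℝ) ^ (l + 1)
          ≤ 16 * (1 / 2) ^ (C + 3) := by linarith
      refine (mul_le_mul_of_nonneg_left e2 hN).trans (le_of_eq ?_)
      rw [pow_add, div_eq_mul_inv (2 * ((N : ℝ) + 1)), ← inv_pow, one_div]
      ring
    have e3 : ((Nat.log 2 N + 3 - (C + 3) : ℕ) : ℝ) ≤ (Nat.log 2 N : ℕ) := by
      exact_mod_cast (by omega : Nat.log 2 N + 3 - (C + 3) ≤ Nat.log 2 N)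
    linarith

end Pool.Agent.Lib.MP_4964e1_lc
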