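import Pool.Agent.Lib.MP_4964e1_lc.Hub71

/-!
Only finitely many numbers are reached in depth `k`.
-/

namespace Pool.Agent.Lib.MP_4964e1_lc

/-- Finitely many types of tuples. -/
theorem exists_types : ∀ (k m : ℕ), ∃ (T : Type) (_ : Finite T)
    (f : ∀ (V : Type), SimpleGraph V → (Fin m → V) → T),
    ∀ (V W : Type) (G : SimpleGraph V) (H : SimpleGraph W) (v : Fin m → V) (w : Fin m → W),
      f V G v = f W H w → Bf G H k (rel v w) := by
  intro k
  have hat : ∀ (m : ℕ) (V W : Type) (G : SimpleGraph V) (H : SimpleGraph W) (v : Fin m → V)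
      (w : Fin m → W),
      (fun p : Fin m × Fin m => (v p.1 = v p.2, G.Adj (v p.1) (v p.2))) =
        (fun p : Fin m × Fin m => (w p.1 = w p.2, H.Adj (w p.1) (w p.2))) →
      Atom G H (rel v w) := by
    rintro m V W G H v w h a b c d ⟨i, rfl, rfl⟩ ⟨j, rfl, rfl⟩
    have h1 := congrFun h (i, j)
    simp only [Prod.mk.injEq] at h1
    exact ⟨h1.1 ▸ Iff.rfl, h1.2 ▸ Iff.rfl⟩
  induction k with
  | zero =>
    intro m
    exact ⟨Fin m × Fin m → Prop × Prop, inferInstance,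
      fun V G v p => (v p.1 = v p.2, G.Adj (v p.1) (v p.2)),
      fun V W G H v w h => hat m V W G H v w h⟩
  | succ k ih =>
    intro m
    obtain ⟨T, hT, f, hf⟩ := ih (m + 1)
    refine ⟨(Fin m × Fin m → Prop × Prop) × Set T, inferInstance,
      fun V G v => (fun p => (v p.1 = v p.2, G.Adj (v p.1) (v p.2)),
        Set.range fun x => f V G (Fin.snoc v x)), fun V W G H v w h => ?_⟩
    simp only [Prod.mk.injEq] at h
    refine ⟨hat m V W G H v w h.1, fun x => ?_, fun y => ?_⟩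
    · have hx : f V G (Fin.snoc v x) ∈ Set.range fun y => f W H (Fin.snoc w y) := by
        rw [← h.2]
        exact ⟨x, rfl⟩
      obtain ⟨y, hy⟩ := hx
      exact ⟨y, rel_snoc v w x y ▸ hf _ _ _ _ _ _ hy.symm⟩
    · have hy : f W H (Fin.snoc w y) ∈ Set.range fun x => f V G (Fin.snoc v x) := by
        rw [h.2]
        exact ⟨y, rfl⟩
      obtain ⟨x, hx⟩ := hy
      exact ⟨x, rel_snoc v w x y ▸ hf _ _ _ _ _ _ hx⟩

theorem finite_reach (k : ℕ) : {n : ℕ | 1 ≤ n ∧ Reach n k}.Finite := by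
  classical
  obtain ⟨T, hT, f, hf⟩ := exists_types k 0
  have key : ∀ n : {n : ℕ | 1 ≤ n ∧ Reach n k}, ∃ G : SimpleGraph (Fin n), Dep k G :=
    fun n => n.2.2
  choose G hG using key
  have hinj : Function.Injective (fun n : {n : ℕ | 1 ≤ n ∧ Reach n k} =>
      f (Fin n) (G n) Fin.elim0) := by
    intro a b h
    have h1 := hf _ _ _ _ _ _ h
    rw [rel_zero] at h1
    have : Nonempty (Fin (b : ℕ)) := ⟨⟨0, b.2.1⟩⟩
    obtain ⟨e⟩ := hG a (Fin b) (G b) h1
    apply Subtype.ext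
    have h2 := Fintype.card_congr e.toEquiv
    simpa using h2
  exact Set.finite_coe_iff.1 (Finite.of_injective _ hinj)

theorem q_tendsto (K : ℕ) : ∃ n₀, ∀ n, n₀ ≤ n → K ≤ q n := by
  obtain ⟨b, hb⟩ := (finite_reach K).bddAbove
  refine ⟨b + 1, fun n hn => ?_⟩
  by_contra h
  have hn1 : 1 ≤ n := by omega
  have h1 : n ≤ b := hb ⟨hn1, q_le_iff.1 (by omega)⟩
  omega

end Pool.Agent.Lib.MP_4964e1_lc
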