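import Pool.Agent.Lib.MP_4964e1_lc.Game71

/-! Row FIN of MP_4964e1: finitely many sizes at each depth. -/

namespace Pool.Agent.Lib.MP_4964e1_lc

/-- atomic type -/
def atp {V : Type} {m : ℕ} (G : SimpleGraph V) (v : Fin m → V) : Fin m → Fin m → Prop × Prop :=
  fun i j => (v i = v j, G.Adj (v i) (v j))

theorem atp_atom {V W : Type} {m : ℕ} {G : SimpleGraph V} {H : SimpleGraph W} {v : Fin m → V}
    {w : Fin m → W} (h : atp G v = atp H w) : Atom G H (rel v w) := by
  rintro a b c d ⟨i, rfl, rfl⟩ ⟨j, rfl, rfl⟩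
  have h1 := congrFun (congrFun h i) j
  simp only [atp, Prod.mk.injEq] at h1
  exact ⟨iff_of_eq h1.1, iff_of_eq h1.2⟩

theorem types86 (k : ℕ) : ∀ m : ℕ, ∃ (T : Type) (_ : Finite T)
    (f : ∀ (V : Type) (_ : SimpleGraph V) (_ : Fin m → V), T),
    ∀ (V W : Type) (G : SimpleGraph V) (H : SimpleGraph W) (v : Fin m → V) (w : Fin m → W),
      f V G v = f W H w → Bf G H k (rel v w) := by
  induction k with
  | zero =>
    intro m
    exact ⟨Fin m → Fin m → Prop × Prop, inferInstance, fun V G v => atp G v,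
      fun V W G H v w h => atp_atom h⟩
  | succ k ih =>
    intro m
    obtain ⟨T, hT, f, hf⟩ := ih (m + 1)
    refine ⟨(Fin m → Fin m → Prop × Prop) × Set T, inferInstance,
      fun V G v => (atp G v, Set.range fun x : V => f V G (Fin.snoc v x)), ?_⟩
    intro V W G H v w h
    rw [Prod.mk.injEq] at h
    refine ⟨atp_atom h.1, fun x => ?_, fun y => ?_⟩
    · have hx : f V G (Fin.snoc v x) ∈ Set.range fun y : W => f W H (Fin.snoc w y) := by
        rw [← h.2]
        exact ⟨x, rfl⟩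
      obtain ⟨y, hy⟩ := hx
      refine ⟨y, ?_⟩
      rw [← rel_snoc]
      exact hf V W G H _ _ hy.symm
    · have hy : f W H (Fin.snoc w y) ∈ Set.range fun x : V => f V G (Fin.snoc v x) := by
        rw [h.2]
        exact ⟨y, rfl⟩
      obtain ⟨x, hx⟩ := hy
      refine ⟨x, ?_⟩
      rw [← rel_snoc]
      exact hf V W G H _ _ hx

theorem fin86 (k : ℕ) : {n : ℕ | 1 ≤ n ∧ ∃ G : SimpleGraph (Fin n), Dep k G}.Finite := by
  obtain ⟨T, hT, f, hf⟩ := types86 k 0
  choose G hG using fun n : {n : ℕ | 1 ≤ n ∧ ∃ G : SimpleGraph (Fin n), Dep k G} => n.2.2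
  have hinj : Function.Injective
      (fun n : {n : ℕ | 1 ≤ n ∧ ∃ G : SimpleGraph (Fin n), Dep k G} =>
        f (Fin n) (G n) Fin.elim0) := by
    intro a b hab
    have h1 := hf _ _ (G a) (G b) Fin.elim0 Fin.elim0 hab
    rw [rel_zero] at h1
    have hb : 1 ≤ (b : ℕ) := b.2.1
    have : Nonempty (Fin (b : ℕ)) := ⟨⟨0, hb⟩⟩
    obtain ⟨e⟩ := hG a (Fin b) (G b) h1
    have hc := Fintype.card_congr e.toEquiv
    simp only [Fintype.card_fin] at hc
    exact Subtype.ext hc
  have hfin := Finite.of_injective _ hinj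
  exact Set.toFinite _

end Pool.Agent.Lib.MP_4964e1_lc
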