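import Pool.Agent.Lib.MP_4964e1_lc.Defs71

/-!
Back and forth equivalence and its relation to formulas of bounded quantifier depth.
-/

namespace Pool.Agent.Lib.MP_4964e1_lc

open FirstOrder FirstOrder.Language

variable {V W U : Type}

/-- The pairs chosen so far form a partial isomorphism. -/
def Atom (G : SimpleGraph V) (H : SimpleGraph W) (R : V → W → Prop) : Prop :=
  ∀ a b c d, R a b → R c d → ((a = c ↔ b = d) ∧ (G.Adj a c ↔ H.Adj b d))

/-- Add one pair. -/
def ins (R : V → W → Prop) (x : V) (y : W) : V → W → Prop :=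
  fun a b => R a b ∨ (a = x ∧ b = y)

/-- Back and forth equivalence for `k` rounds. -/
def Bf (G : SimpleGraph V) (H : SimpleGraph W) : ℕ → (V → W → Prop) → Prop
  | 0, R => Atom G H R
  | k + 1, R => Atom G H R ∧ (∀ x, ∃ y, Bf G H k (ins R x y)) ∧
      (∀ y, ∃ x, Bf G H k (ins R x y))

theorem Bf.atom {G : SimpleGraph V} {H : SimpleGraph W} {k : ℕ} {R : V → W → Prop}
    (h : Bf G H k R) : Atom G H R := by
  cases k with
  | zero => exact h
  | succ k => exact h.1

theorem Bf.mono {G : SimpleGraph V} {H : SimpleGraph W} :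
    ∀ {k : ℕ} {R S : V → W → Prop}, (∀ a b, S a b → R a b) → Bf G H k R → Bf G H k S := by
  intro k
  induction k with
  | zero => exact fun hS h a b c d h1 h2 => h a b c d (hS _ _ h1) (hS _ _ h2)
  | succ k ih =>
    intro R S hS h
    have hi : ∀ x y, ∀ a b, ins S x y a b → ins R x y a b := by
      rintro x y a b (h1 | h1)
      · exact Or.inl (hS _ _ h1)
      · exact Or.inr h1
    refine ⟨fun a b c d h1 h2 => h.1 a b c d (hS _ _ h1) (hS _ _ h2), fun x => ?_, fun y => ?_⟩
    · obtain ⟨y, hy⟩ := h.2.1 x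
      exact ⟨y, ih (hi x y) hy⟩
    · obtain ⟨x, hx⟩ := h.2.2 y
      exact ⟨x, ih (hi x y) hx⟩

theorem Bf.down {G : SimpleGraph V} {H : SimpleGraph W} :
    ∀ {k : ℕ} {R : V → W → Prop}, Bf G H (k + 1) R → Bf G H k R := by
  intro k
  induction k with
  | zero => exact fun h => h.1
  | succ k ih =>
    intro R h
    refine ⟨h.1, fun x => ?_, fun y => ?_⟩
    · obtain ⟨y, hy⟩ := h.2.1 x
      exact ⟨y, ih hy⟩
    · obtain ⟨x, hx⟩ := h.2.2 y
      exact ⟨x, ih hx⟩

theorem Bf.le {G : SimpleGraph V} {H : SimpleGraph W} {j k : ℕ} (hjk : j ≤ k)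
    {R : V → W → Prop} (h : Bf G H k R) : Bf G H j R := by
  induction hjk with
  | refl => exact h
  | step _ ih => exact ih h.down

/-- Symmetry. -/
theorem Bf.symm {G : SimpleGraph V} {H : SimpleGraph W} :
    ∀ {k : ℕ} {R : V → W → Prop}, Bf G H k R → Bf H G k (fun b a => R a b) := by
  intro k
  induction k with
  | zero =>
    intro R h a b c d h1 h2
    obtain ⟨e1, e2⟩ := h b a d c h1 h2
    exact ⟨e1.symm, e2.symm⟩
  | succ k ih =>
    intro R h
    have hi : ∀ x y, (fun (b : W) (a : V) => ins R x y a b) = ins (fun b a => R a b) y x := by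
      intro x y
      funext b a
      simp only [ins, and_comm]
    refine ⟨fun a b c d h1 h2 => ?_, fun y => ?_, fun x => ?_⟩
    · obtain ⟨e1, e2⟩ := h.1 b a d c h1 h2
      exact ⟨e1.symm, e2.symm⟩
    · obtain ⟨x, hx⟩ := h.2.2 y
      exact ⟨x, hi x y ▸ ih hx⟩
    · obtain ⟨y, hy⟩ := h.2.1 x
      exact ⟨y, hi x y ▸ ih hy⟩

/-- Complements. -/
theorem Bf.compl {G : SimpleGraph V} {H : SimpleGraph W} :
    ∀ {k : ℕ} {R : V → W → Prop}, Bf G H k R → Bf Gᶜ Hᶜ k R := by
  have hA : ∀ {R : V → W → Prop}, Atom G H R → Atom Gᶜ Hᶜ R := by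
    intro R h a b c d h1 h2
    obtain ⟨e1, e2⟩ := h a b c d h1 h2
    refine ⟨e1, ?_⟩
    simp only [SimpleGraph.compl_adj, ne_eq]
    rw [e1, e2]
  intro k
  induction k with
  | zero => exact fun h => hA h
  | succ k ih =>
    intro R h
    refine ⟨hA h.1, fun x => ?_, fun y => ?_⟩
    · obtain ⟨y, hy⟩ := h.2.1 x
      exact ⟨y, ih hy⟩
    · obtain ⟨x, hx⟩ := h.2.2 y
      exact ⟨x, ih hx⟩

/-- Isomorphic graphs are equivalent. -/
theorem Bf.of_iso {G : SimpleGraph V} {H : SimpleGraph W} (e : G ≃g H) :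
    ∀ {k : ℕ} {R : V → W → Prop}, (∀ a b, R a b → b = e a) → Bf G H k R := by
  have hA : ∀ {R : V → W → Prop}, (∀ a b, R a b → b = e a) → Atom G H R := by
    intro R h a b c d h1 h2
    rw [h _ _ h1, h _ _ h2]
    exact ⟨e.injective.eq_iff.symm, e.map_adj_iff.symm⟩
  intro k
  induction k with
  | zero => exact fun h => hA h
  | succ k ih =>
    intro R h
    refine ⟨hA h, fun x => ⟨e x, ih ?_⟩, fun y => ⟨e.symm y, ih ?_⟩⟩
    · rintro a b (h1 | ⟨rfl, rfl⟩)
      · exact h _ _ h1
      · rfl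
    · rintro a b (h1 | ⟨rfl, rfl⟩)
      · exact h _ _ h1
      · simp

/-- Composition with an isomorphism on the left. -/
theorem Bf.comp_iso {G : SimpleGraph V} {G' : SimpleGraph U} {H : SimpleGraph W} (e : G ≃g G') :
    ∀ {k : ℕ} {R : U → W → Prop}, Bf G' H k R → Bf G H k (fun a b => R (e a) b) := by
  have hA : ∀ {R : U → W → Prop}, Atom G' H R → Atom G H (fun a b => R (e a) b) := by
    intro R h a b c d h1 h2
    obtain ⟨e1, e2⟩ := h _ b _ d h1 h2
    exact ⟨e.injective.eq_iff.symm.trans e1, e.map_adj_iff.symm.trans e2⟩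
  intro k
  induction k with
  | zero => exact fun h => hA h
  | succ k ih =>
    intro R h
    have hi : ∀ x y, (fun (a : V) (b : W) => ins R (e x) y (e a) b) =
        ins (fun a b => R (e a) b) x y := by
      intro x y
      funext a b
      simp only [ins, e.injective.eq_iff]
    refine ⟨hA h.1, fun x => ?_, fun y => ?_⟩
    · obtain ⟨y, hy⟩ := h.2.1 (e x)
      exact ⟨y, hi x y ▸ ih hy⟩
    · obtain ⟨x, hx⟩ := h.2.2 y
      refine ⟨e.symm x, ?_⟩
      rw [← hi]
      have := ih hx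
      simpa using this

/-- The empty relation. -/
def emp : V → W → Prop := fun _ _ => False

/-- The relation given by two tuples. -/
def rel {m : ℕ} (v : Fin m → V) (w : Fin m → W) : V → W → Prop :=
  fun a b => ∃ i, v i = a ∧ w i = b

theorem rel_zero (v : Fin 0 → V) (w : Fin 0 → W) : rel v w = emp := by
  funext a b
  simp [rel, emp]

theorem rel_snoc {m : ℕ} (v : Fin m → V) (w : Fin m → W) (x : V) (y : W) :
    rel (Fin.snoc v x : Fin (m + 1) → V) (Fin.snoc w y : Fin (m + 1) → W) = ins (rel v w) x y := by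
  funext a b
  apply propext
  constructor
  · rintro ⟨i, h1, h2⟩
    induction i using Fin.lastCases with
    | last => exact Or.inr ⟨by simpa using h1.symm, by simpa using h2.symm⟩
    | cast j => exact Or.inl ⟨j, by simpa using h1, by simpa using h2⟩
  · rintro (⟨i, h1, h2⟩ | ⟨h1, h2⟩)
    · exact ⟨i.castSucc, by simpa using h1, by simpa using h2⟩
    · exact ⟨Fin.last m, by simpa using h1.symm, by simpa using h2.symm⟩

/-- Truth of a formula in a graph. -/
def Tr {m : ℕ} (G : SimpleGraph V) (φ : Language.graph.BoundedFormula Empty m)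
    (v : Fin m → V) : Prop :=
  @BoundedFormula.Realize Language.graph V G.structure Empty m φ (fun e => e.elim) v

theorem holds_iff (G : SimpleGraph V) (φ : Language.graph.Sentence) (v : Fin 0 → V) :
    Holds G φ ↔ Tr G φ v := by
  unfold Holds Tr Sentence.Realize Formula.Realize
  have h1 : (default : Empty → V) = fun e => e.elim := Subsingleton.elim _ _
  have h2 : (default : Fin 0 → V) = v := Subsingleton.elim _ _
  rw [h1, h2]

theorem term_cases {m : ℕ} (t : Language.graph.Term (Empty ⊕ Fin m)) :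
    ∃ i, t = Term.var (Sum.inr i) := by
  cases t with
  | var x =>
    rcases x with e | i
    · exact e.elim
    · exact ⟨i, rfl⟩
  | func f _ => exact Empty.elim f

theorem tr_rel {m : ℕ} (K : SimpleGraph V) (ts : Fin 2 → Language.graph.Term (Empty ⊕ Fin m))
    (i j : Fin m) (hi : ts 0 = Term.var (Sum.inr i)) (hj : ts 1 = Term.var (Sum.inr j))
    (x : Fin m → V) :
    Tr K (BoundedFormula.rel FirstOrder.Language.graphRel.adj ts) x ↔ K.Adj (x i) (x j) := by
  letI := K.structure
  have h : Tr K (BoundedFormula.rel FirstOrder.Language.graphRel.adj ts) x ↔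
      K.Adj ((ts 0).realize (Sum.elim (fun e => e.elim) x))
        ((ts 1).realize (Sum.elim (fun e => e.elim) x)) := Iff.rfl
  rw [h, hi, hj]
  exact Iff.rfl

/-- Formulas of depth at most `k` do not distinguish equivalent tuples. -/
theorem Tr_iff {G : SimpleGraph V} {H : SimpleGraph W} {m : ℕ}
    (φ : Language.graph.BoundedFormula Empty m) :
    ∀ {k : ℕ}, qdepth φ ≤ k → ∀ {v : Fin m → V} {w : Fin m → W}, Bf G H k (rel v w) →
      (Tr G φ v ↔ Tr H φ w) := by
  induction φ with
  | falsum => exact fun _ _ _ _ => Iff.rfl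
  | @equal m t1 t2 =>
    intro k _ v w h
    obtain ⟨i, rfl⟩ := term_cases t1
    obtain ⟨j, rfl⟩ := term_cases t2
    exact (h.atom _ _ _ _ ⟨i, rfl, rfl⟩ ⟨j, rfl, rfl⟩).1
  | @rel m l R ts =>
    intro k _ v w h
    cases R
    obtain ⟨i, hi⟩ := term_cases (ts 0)
    obtain ⟨j, hj⟩ := term_cases (ts 1)
    have h1 := (h.atom _ _ _ _ ⟨i, rfl, rfl⟩ ⟨j, rfl, rfl⟩).2
    rw [tr_rel G ts i j hi hj v, tr_rel H ts i j hi hj w]
    exact h1
  | imp f g ihf ihg =>
    intro k hk v w h
    simp only [qdepth, max_le_iff] at hk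
    have h1 := ihf hk.1 h
    have h2 := ihg hk.2 h
    unfold Tr at h1 h2 ⊢
    simp only [BoundedFormula.realize_imp]
    rw [h1, h2]
  | @all m f ih =>
    intro k hk v w h
    cases k with
    | zero => simp [qdepth] at hk
    | succ k =>
      have hk' : qdepth f ≤ k := by simpa [qdepth] using hk
      unfold Tr
      simp only [BoundedFormula.realize_all]
      constructor
      · intro h1 y
        obtain ⟨x, hx⟩ := h.2.2 y
        rw [← rel_snoc] at hx
        exact (ih hk' hx).1 (h1 x)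
      · intro h1 x
        obtain ⟨y, hy⟩ := h.2.1 x
        rw [← rel_snoc] at hy
        exact (ih hk' hy).2 (h1 y)

/-- A property of tuples in graphs is expressible in depth `k`. -/
def Expr (k m : ℕ) (P : ∀ (W : Type), SimpleGraph W → (Fin m → W) → Prop) : Prop :=
  ∃ φ : Language.graph.BoundedFormula Empty m, qdepth φ ≤ k ∧
    ∀ (W : Type) (H : SimpleGraph W) (w : Fin m → W), Tr H φ w ↔ P W H w

variable {k m : ℕ} {P Q : ∀ (W : Type), SimpleGraph W → (Fin m → W) → Prop}

theorem Expr.congr (h : Expr k m P) (hPQ : ∀ W H w, P W H w ↔ Q W H w) : Expr k m Q := by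
  obtain ⟨φ, h1, h2⟩ := h
  exact ⟨φ, h1, fun W H w => (h2 W H w).trans (hPQ W H w)⟩

theorem Expr.mono {j : ℕ} (h : Expr j m P) (hjk : j ≤ k) : Expr k m P := by
  obtain ⟨φ, h1, h2⟩ := h
  exact ⟨φ, h1.trans hjk, h2⟩

theorem Expr.imp (h : Expr k m P) (h' : Expr k m Q) : Expr k m (fun W H w => P W H w → Q W H w) := by
  obtain ⟨φ, h1, h2⟩ := h
  obtain ⟨ψ, h1', h2'⟩ := h'
  refine ⟨φ.imp ψ, by simp [qdepth, h1, h1'], fun W H w => ?_⟩
  have e1 := h2 W H w
  have e2 := h2' W H w
  unfold Tr at e1 e2 ⊢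
  simp only [BoundedFormula.realize_imp]
  rw [e1, e2]

theorem Expr.false : Expr k m (fun _ _ _ => False) :=
  ⟨.falsum, by simp [qdepth], fun _ _ _ => Iff.rfl⟩

theorem Expr.not (h : Expr k m P) : Expr k m (fun W H w => ¬ P W H w) := h.imp Expr.false

theorem Expr.and (h : Expr k m P) (h' : Expr k m Q) : Expr k m (fun W H w => P W H w ∧ Q W H w) :=
  ((h.imp h'.not).not).congr fun W H w => by tauto

theorem Expr.all {P : ∀ (W : Type), SimpleGraph W → (Fin (m + 1) → W) → Prop}
    (h : Expr k (m + 1) P) :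
    Expr (k + 1) m (fun W H w => ∀ x, P W H (Fin.snoc w x)) := by
  obtain ⟨φ, h1, h2⟩ := h
  refine ⟨φ.all, by simp [qdepth, h1], fun W H w => ?_⟩
  unfold Tr
  simp only [BoundedFormula.realize_all]
  exact forall_congr' fun x => h2 W H _

theorem Expr.ex {P : ∀ (W : Type), SimpleGraph W → (Fin (m + 1) → W) → Prop}
    (h : Expr k (m + 1) P) :
    Expr (k + 1) m (fun W H w => ∃ x, P W H (Fin.snoc w x)) :=
  (h.not.all.not).congr fun W H w => by simp

theorem Expr.eq (i j : Fin m) : Expr k m (fun _ _ w => w i = w j) :=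
  ⟨.equal (Term.var (Sum.inr i)) (Term.var (Sum.inr j)), by simp [qdepth], fun _ _ _ => Iff.rfl⟩

theorem Expr.adj (i j : Fin m) : Expr k m (fun _ H w => H.Adj (w i) (w j)) := by
  refine ⟨BoundedFormula.rel FirstOrder.Language.graphRel.adj
    ![Term.var (Sum.inr i), Term.var (Sum.inr j)], by simp [qdepth], fun W H w => ?_⟩
  exact tr_rel H _ i j rfl rfl w

theorem Expr.forall_finite {ι : Type} [Finite ι]
    {P : ι → ∀ (W : Type), SimpleGraph W → (Fin m → W) → Prop} (h : ∀ i, Expr k m (P i)) :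
    Expr k m (fun W H w => ∀ i, P i W H w) := by
  classical
  have := Fintype.ofFinite ι
  have key : ∀ s : Finset ι, Expr k m (fun W H w => ∀ i ∈ s, P i W H w) := by
    intro s
    induction s using Finset.induction_on with
    | empty => exact (Expr.false.not).congr fun W H w => by simp
    | insert a s _ ih => exact ((h a).and ih).congr fun W H w => by simp
  exact (key Finset.univ).congr fun W H w => by simp

theorem Expr.exists_finite {ι : Type} [Finite ι]
    {P : ι → ∀ (W : Type), SimpleGraph W → (Fin m → W) → Prop} (h : ∀ i, Expr k m (P i)) :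
    Expr k m (fun W H w => ∃ i, P i W H w) :=
  (Expr.forall_finite fun i => (h i).not).not.congr fun W H w => by simp

theorem Expr.iff_const (c : Prop) (h : Expr k m P) : Expr k m (fun W H w => (c ↔ P W H w)) := by
  by_cases hc : c
  · exact h.congr fun W H w => by simp [hc]
  · exact h.not.congr fun W H w => by simp [hc]

theorem expr_atom (G : SimpleGraph V) (v : Fin m → V) :
    Expr k m (fun _ H w => Atom G H (rel v w)) := by
  have h : Expr k m (fun _ H w => ∀ p : Fin m × Fin m,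
      (v p.1 = v p.2 ↔ w p.1 = w p.2) ∧ (G.Adj (v p.1) (v p.2) ↔ H.Adj (w p.1) (w p.2))) :=
    Expr.forall_finite fun p => (Expr.iff_const _ (Expr.eq _ _)).and
      (Expr.iff_const _ (Expr.adj _ _))
  refine h.congr fun W H w => ⟨?_, ?_⟩
  · rintro h a b c d ⟨i, rfl, rfl⟩ ⟨j, rfl, rfl⟩
    exact h (i, j)
  · intro h p
    exact h _ _ _ _ ⟨p.1, rfl, rfl⟩ ⟨p.2, rfl, rfl⟩

/-- The equivalence class of a tuple in a finite graph is expressible. -/
theorem expr_bf [Finite V] (G : SimpleGraph V) :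
    ∀ (k : ℕ) {m : ℕ} (v : Fin m → V), Expr k m (fun _ H w => Bf G H k (rel v w)) := by
  intro k
  induction k with
  | zero => exact fun v => expr_atom G v
  | succ k ih =>
    intro m v
    have h1 : Expr (k + 1) m (fun W H w => ∀ x : V, ∃ y : W,
        Bf G H k (rel (Fin.snoc v x : Fin (m + 1) → V) (Fin.snoc w y : Fin (m + 1) → W))) :=
      Expr.forall_finite fun x => (ih (Fin.snoc v x : Fin (m + 1) → V)).ex
    have h2 : Expr (k + 1) m (fun W H w => ∀ y : W, ∃ x : V,
        Bf G H k (rel (Fin.snoc v x : Fin (m + 1) → V) (Fin.snoc w y : Fin (m + 1) → W))) :=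
      (Expr.exists_finite fun x => ih (Fin.snoc v x : Fin (m + 1) → V)).all
    refine ((expr_atom G v).and (h1.and h2)).congr fun W H w => ?_
    simp only [rel_snoc]
    exact Iff.rfl

/-- `G` is alone in its class of `k`-equivalence among the finite graphs. -/
def Dep (k : ℕ) (G : SimpleGraph V) : Prop :=
  ∀ (W : Type) [Finite W] [Nonempty W] (H : SimpleGraph W), Bf G H k emp → Nonempty (G ≃g H)

theorem exists_defines_iff [Finite V] (G : SimpleGraph V) (k : ℕ) :
    (∃ φ : Language.graph.Sentence, Defines φ G ∧ qdepth φ ≤ k) ↔ Dep k G := by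
  constructor
  · rintro ⟨φ, ⟨h1, h2⟩, h3⟩ W _ _ H hH
    apply h2
    have e0 : (Fin 0 → V) := Fin.elim0
    rw [holds_iff H φ Fin.elim0]
    rw [holds_iff G φ Fin.elim0] at h1
    rw [← rel_zero Fin.elim0 Fin.elim0] at hH
    exact (Tr_iff φ h3 hH).1 h1
  · intro h
    obtain ⟨φ, h1, h2⟩ := expr_bf G k (Fin.elim0 : Fin 0 → V)
    refine ⟨φ, ⟨?_, ?_⟩, h1⟩
    · rw [holds_iff G φ Fin.elim0, h2]
      exact Bf.of_iso (SimpleGraph.Iso.refl) (by rintro a b ⟨i, _⟩; exact i.elim0)
    · intro W _ _ H hH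
      rw [holds_iff H φ Fin.elim0, h2, rel_zero] at hH
      exact h W H hH

theorem Dep.iso {G : SimpleGraph V} {G' : SimpleGraph U} (e : G ≃g G') {k : ℕ} (h : Dep k G) :
    Dep k G' := by
  intro W _ _ H hH
  obtain ⟨f⟩ := h W H (Bf.comp_iso e hH)
  exact ⟨e.symm.trans f⟩

theorem Dep.mono {G : SimpleGraph V} {j k : ℕ} (hjk : j ≤ k) (h : Dep j G) : Dep k G :=
  fun W _ _ H hH => h W H (hH.le hjk)

theorem Dep.compl {G : SimpleGraph V} {k : ℕ} (h : Dep k G) : Dep k Gᶜ := by
  intro W _ _ H hH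
  have h1 : Bf G Hᶜ k emp := by
    have := hH.compl
    rwa [compl_compl] at this
  obtain ⟨e⟩ := h W Hᶜ h1
  refine ⟨⟨e.toEquiv, ?_⟩⟩
  intro a b
  have h2 : Hᶜ.Adj (e a) (e b) ↔ G.Adj a b := e.map_adj_iff
  have h3 : e a = e b ↔ a = b := e.injective.eq_iff
  change H.Adj (e a) (e b) ↔ Gᶜ.Adj a b
  rw [SimpleGraph.compl_adj] at h2 ⊢
  constructor
  · intro h4
    refine ⟨fun h5 => ?_, fun h5 => ?_⟩
    · subst h5
      exact H.loopless.irrefl _ h4
    · exact (h2.2 h5).2 h4
  · rintro ⟨h4, h5⟩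
    by_contra h6
    exact h5 (h2.1 ⟨fun h7 => h4 (h3.1 h7), h6⟩)

end Pool.Agent.Lib.MP_4964e1_lc
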