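import Pool.Agent.Lib.MP_4964e1_lc.Can86

/-!
Modules (homogeneous sets): the subgraph induced on a module is defined in the depth of the graph.
-/

namespace Pool.Agent.Lib.MP_4964e1_lc

open SimpleGraph

variable {O A B X V : Type}

/-- A graph on `O`, a graph on `A`, and all edges between the vertices of `O` with `P` and `A`. -/
def att (GO : SimpleGraph O) (P : O → Prop) (H : SimpleGraph A) : SimpleGraph (O ⊕ A) where
  Adj x y := match x, y with
    | Sum.inl o, Sum.inl o' => GO.Adj o o'
    | Sum.inl o, Sum.inr _ => P o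
    | Sum.inr _, Sum.inl o => P o
    | Sum.inr a, Sum.inr a' => H.Adj a a'
  symm := ⟨by
    rintro (x | x) (y | y) h
    · exact GO.adj_symm h
    · exact h
    · exact h
    · exact H.adj_symm h⟩
  loopless := ⟨by
    rintro (x | x) h
    · exact GO.loopless.irrefl _ h
    · exact H.loopless.irrefl _ h⟩

/-- injective homomorphisms -/
def Inj (F : SimpleGraph X) (G : SimpleGraph V) : Type :=
  {f : X → V // Function.Injective f ∧ ∀ x y, F.Adj x y → G.Adj (f x) (f y)}

/-- partial maps to `O` on the set `U`, the rest going to the other part -/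
def CU (F : SimpleGraph X) (GO : SimpleGraph O) (P : O → Prop) (U : Set X) : Type :=
  {g : U → O // Function.Injective g ∧ (∀ u v : U, F.Adj u v → GO.Adj (g u) (g v)) ∧
    ∀ (u : U) (v : X), v ∉ U → F.Adj u v → P (g u)}

/-- injective homomorphisms to the attached graph with a given pattern -/
def Pat (F : SimpleGraph X) (GO : SimpleGraph O) (P : O → Prop) (H : SimpleGraph A)
    (U : Set X) : Type :=
  {f : Inj F (att GO P H) // {x | (f.1 x).isLeft = true} = U}

theorem mem_pat {F : SimpleGraph X} {GO : SimpleGraph O} {P : O → Prop} {H : SimpleGraph A}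
    {U : Set X} (f : Pat F GO P H U) (x : X) : x ∈ U ↔ (f.1.1 x).isLeft = true :=
  (Set.ext_iff.1 f.2 x).symm

open Classical in
/-- splitting -/
noncomputable def patEquiv (F : SimpleGraph X) (GO : SimpleGraph O) (P : O → Prop)
    (H : SimpleGraph A) (U : Set X) :
    Pat F GO P H U ≃ CU F GO P U × Inj (F.induce Uᶜ) H where
  toFun f :=
    (⟨fun u => (f.1.1 u).getLeft ((mem_pat f u).1 u.2), by
      refine ⟨fun u v h => ?_, fun u v h => ?_, fun u v hv h => ?_⟩
      · apply Subtype.ext
        apply f.1.2.1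
        rw [← Sum.inl_getLeft (f.1.1 u) ((mem_pat f u).1 u.2),
          ← Sum.inl_getLeft (f.1.1 v) ((mem_pat f v).1 v.2)]
        exact congrArg Sum.inl h
      · have h1 := f.1.2.2 u v h
        rw [← Sum.inl_getLeft (f.1.1 u) ((mem_pat f u).1 u.2),
          ← Sum.inl_getLeft (f.1.1 v) ((mem_pat f v).1 v.2)] at h1
        exact h1
      · have h1 := f.1.2.2 u v h
        have hv' : (f.1.1 v).isRight = true := by
          have := (not_congr (mem_pat f v)).1 hv
          simpa using this
        rw [← Sum.inl_getLeft (f.1.1 u) ((mem_pat f u).1 u.2),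
          ← Sum.inr_getRight (f.1.1 v) hv'] at h1
        exact h1⟩,
    ⟨fun v => (f.1.1 v).getRight (by
        have := (not_congr (mem_pat f v)).1 v.2
        simpa using this), by
      have hr : ∀ v : (Uᶜ : Set X), (f.1.1 v).isRight = true := fun v => by
        have := (not_congr (mem_pat f v)).1 v.2
        simpa using this
      refine ⟨fun u v h => ?_, fun u v h => ?_⟩
      · apply Subtype.ext
        apply f.1.2.1
        rw [← Sum.inr_getRight (f.1.1 u) (hr u), ← Sum.inr_getRight (f.1.1 v) (hr v)]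
        exact congrArg Sum.inr h
      · have h1 := f.1.2.2 u v h
        rw [← Sum.inr_getRight (f.1.1 u) (hr u), ← Sum.inr_getRight (f.1.1 v) (hr v)] at h1
        exact h1⟩)
  invFun p :=
    ⟨⟨fun x => if hx : x ∈ U then Sum.inl (p.1.1 ⟨x, hx⟩) else Sum.inr (p.2.1 ⟨x, hx⟩), by
      obtain ⟨⟨g, hg1, hg2, hg3⟩, ⟨k, hk1, hk2⟩⟩ := p
      refine ⟨fun x y h => ?_, fun x y h => ?_⟩
      · by_cases hx : x ∈ U <;> by_cases hy : y ∈ U
        · simp only [dif_pos hx, dif_pos hy] at h
          exact congrArg Subtype.val (hg1 (Sum.inl_injective h))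
        · simp only [dif_pos hx, dif_neg hy] at h
          cases h
        · simp only [dif_neg hx, dif_pos hy] at h
          cases h
        · simp only [dif_neg hx, dif_neg hy] at h
          exact congrArg Subtype.val (hk1 (Sum.inr_injective h))
      · by_cases hx : x ∈ U <;> by_cases hy : y ∈ U
        · simp only [dif_pos hx, dif_pos hy]
          exact hg2 ⟨x, hx⟩ ⟨y, hy⟩ h
        · simp only [dif_pos hx, dif_neg hy]
          exact hg3 ⟨x, hx⟩ y hy h
        · simp only [dif_neg hx, dif_pos hy]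
          exact hg3 ⟨y, hy⟩ x hx h.symm
        · simp only [dif_neg hx, dif_neg hy]
          exact hk2 ⟨x, hx⟩ ⟨y, hy⟩ h⟩, by
      ext x
      by_cases hx : x ∈ U
      · simp [hx]
      · simp [hx]⟩
  left_inv f := by
    apply Subtype.ext
    apply Subtype.ext
    funext x
    by_cases hx : x ∈ U
    · simp only [dif_pos hx]
      exact Sum.inl_getLeft _ _
    · simp only [dif_neg hx]
      exact Sum.inr_getRight _ _
  right_inv p := by
    apply Prod.ext
    · apply Subtype.ext
      funext u
      have hu := u.2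
      simp [hu]
    · apply Subtype.ext
      funext u
      have hu : (u : X) ∉ U := u.2
      simp [hu]

instance [Finite X] [Finite V] (F : SimpleGraph X) (G : SimpleGraph V) : Finite (Inj F G) :=
  inferInstanceAs (Finite {f : X → V // _})

instance [Finite X] [Finite O] (F : SimpleGraph X) (GO : SimpleGraph O) (P : O → Prop)
    (U : Set X) : Finite (CU F GO P U) :=
  inferInstanceAs (Finite {g : U → O // _})

instance [Finite X] [Finite O] [Finite A] (F : SimpleGraph X) (GO : SimpleGraph O)
    (P : O → Prop) (H : SimpleGraph A) (U : Set X) : Finite (Pat F GO P H U) :=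
  inferInstanceAs (Finite {f : Inj F (att GO P H) // _})

open Classical in
theorem card_inj [Finite X] [Finite O] [Finite A] (F : SimpleGraph X) (GO : SimpleGraph O)
    (P : O → Prop) (H : SimpleGraph A) :
    Nat.card (Inj F (att GO P H)) =
      ∑ᶠ U : Set X, Nat.card (CU F GO P U) * Nat.card (Inj (F.induce Uᶜ) H) := by
  have := Fintype.ofFinite X
  rw [finsum_eq_sum_of_fintype]
  rw [← Nat.card_congr (Equiv.sigmaFiberEquiv
    (fun f : Inj F (att GO P H) => {x | (f.1 x).isLeft = true})), Nat.card_sigma]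
  refine Finset.sum_congr rfl fun U _ => ?_
  rw [← Nat.card_prod]
  exact Nat.card_congr (patEquiv F GO P H U)

theorem Inj.card_congr {Y : Type} {F : SimpleGraph X} {F' : SimpleGraph Y} {G : SimpleGraph V}
    (e : F ≃g F') : Nat.card (Inj F G) = Nat.card (Inj F' G) := by
  refine Nat.card_congr
    { toFun := fun f => ⟨fun y => f.1 (e.symm y), f.2.1.comp e.symm.injective,
        fun x y h => f.2.2 _ _ (e.symm.map_adj_iff.2 h)⟩
      invFun := fun f => ⟨fun y => f.1 (e y), f.2.1.comp e.injective,
        fun x y h => f.2.2 _ _ (e.map_adj_iff.2 h)⟩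
      left_inv := fun f => by
        apply Subtype.ext
        funext x
        simp
      right_inv := fun f => by
        apply Subtype.ext
        funext x
        simp }

theorem Inj.card_congr' {W : Type} {F : SimpleGraph X} {G : SimpleGraph V} {G' : SimpleGraph W}
    (e : G ≃g G') : Nat.card (Inj F G) = Nat.card (Inj F G') := by
  refine Nat.card_congr
    { toFun := fun f => ⟨fun y => e (f.1 y), e.injective.comp f.2.1,
        fun x y h => e.map_adj_iff.2 (f.2.2 _ _ h)⟩
      invFun := fun f => ⟨fun y => e.symm (f.1 y), e.symm.injective.comp f.2.1,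
        fun x y h => e.symm.map_adj_iff.2 (f.2.2 _ _ h)⟩
      left_inv := fun f => by
        apply Subtype.ext
        funext x
        simp
      right_inv := fun f => by
        apply Subtype.ext
        funext x
        simp }

/-- equal numbers of injective homomorphisms from all finite graphs -/
theorem inj_eq [Finite O] [Finite A] [Finite B] (GO : SimpleGraph O) (P : O → Prop)
    (H : SimpleGraph A) (H' : SimpleGraph B) (e : att GO P H ≃g att GO P H') :
    ∀ (n : ℕ) (X : Type) [Finite X] (F : SimpleGraph X), Nat.card X = n →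
      Nat.card (Inj F H) = Nat.card (Inj F H') := by
  classical
  intro n
  induction n using Nat.strong_induction_on with
  | _ n ih =>
    intro X _ F hX
    have := Fintype.ofFinite X
    have h1 := card_inj F GO P H
    have h2 := card_inj F GO P H'
    rw [Inj.card_congr' e, h2, finsum_eq_sum_of_fintype, finsum_eq_sum_of_fintype,
      ← Finset.add_sum_erase _ _ (Finset.mem_univ (∅ : Set X)),
      ← Finset.add_sum_erase _ _ (Finset.mem_univ (∅ : Set X))] at h1
    have h3 : ∑ U ∈ (Finset.univ : Finset (Set X)).erase ∅,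
        Nat.card (CU F GO P U) * Nat.card (Inj (F.induce Uᶜ) H') =
        ∑ U ∈ (Finset.univ : Finset (Set X)).erase ∅,
        Nat.card (CU F GO P U) * Nat.card (Inj (F.induce Uᶜ) H) := by
      refine Finset.sum_congr rfl fun U hU => ?_
      have hne : U ≠ ∅ := (Finset.mem_erase.1 hU).1
      obtain ⟨u, hu⟩ := Set.nonempty_iff_ne_empty.2 hne
      have hlt : Nat.card (Uᶜ : Set X) < n := by
        rw [← hX]
        refine Finite.card_subtype_lt (x := u) ?_
        exact fun h => h hu
      rw [ih _ hlt _ (F.induce Uᶜ) rfl]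
    rw [h3] at h1
    have h4 := Nat.add_right_cancel h1
    have hc : Nat.card (CU F GO P (∅ : Set X)) = 1 := by
      rw [Nat.card_eq_one_iff_unique]
      refine ⟨⟨fun f g => ?_⟩, ⟨⟨fun u => (Set.notMem_empty _ u.2).elim,
        fun u => (Set.notMem_empty _ u.2).elim, fun u => (Set.notMem_empty _ u.2).elim,
        fun u => (Set.notMem_empty _ u.2).elim⟩⟩⟩
      apply Subtype.ext
      funext u
      exact (Set.notMem_empty _ u.2).elim
    rw [hc, one_mul, one_mul] at h4
    have e0 : F ≃g F.induce ((∅ : Set X)ᶜ) :=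
      ⟨(Equiv.Set.univ X).symm.trans (Equiv.setCongr (by simp)), by
        intro a b
        rfl⟩
    rw [Inj.card_congr e0, Inj.card_congr e0]
    exact h4.symm

/-- mutual injective homomorphisms of finite graphs give an isomorphism -/
theorem iso_of_inj [Finite A] [Finite B] (GA : SimpleGraph A) (GB : SimpleGraph B)
    (T : Inj GA GB) (T' : Inj GB GA) : Nonempty (GA ≃g GB) := by
  obtain ⟨T, hT, hTa⟩ := T
  obtain ⟨T', hT', hTa'⟩ := T'
  have hbij : Function.Bijective T :=
    hT.bijective_of_nat_card_le (Nat.card_le_card_of_injective T' hT')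
  let EA := {p : A × A // GA.Adj p.1 p.2}
  let EB := {p : B × B // GB.Adj p.1 p.2}
  let f : EA → EB := fun p => ⟨(T p.1.1, T p.1.2), hTa _ _ p.2⟩
  let f' : EB → EA := fun p => ⟨(T' p.1.1, T' p.1.2), hTa' _ _ p.2⟩
  have hf : Function.Injective f := by
    rintro ⟨⟨a, b⟩, h⟩ ⟨⟨c, d⟩, h'⟩ hh
    have h1 := congrArg (fun p : EB => p.1.1) hh
    have h2 := congrArg (fun p : EB => p.1.2) hh
    have h3 := hT h1
    have h4 := hT h2
    simp only at h3 h4
    subst h3 h4
    rfl
  have hf' : Function.Injective f' := by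
    rintro ⟨⟨a, b⟩, h⟩ ⟨⟨c, d⟩, h'⟩ hh
    have h1 := congrArg (fun p : EA => p.1.1) hh
    have h2 := congrArg (fun p : EA => p.1.2) hh
    have h3 := hT' h1
    have h4 := hT' h2
    simp only at h3 h4
    subst h3 h4
    rfl
  have hfb : Function.Bijective f :=
    hf.bijective_of_nat_card_le (Nat.card_le_card_of_injective f' hf')
  refine ⟨⟨Equiv.ofBijective T hbij, ?_⟩⟩
  intro a a'
  change GB.Adj (T a) (T a') ↔ GA.Adj a a'
  constructor
  · intro h
    obtain ⟨p, hp⟩ := hfb.2 ⟨(T a, T a'), h⟩
    have h1 := congrArg (fun p : EB => p.1.1) hp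
    have h2 := congrArg (fun p : EB => p.1.2) hp
    have h3 : p.1.1 = a := hT h1
    have h4 : p.1.2 = a' := hT h2
    have h5 := p.2
    rw [h3, h4] at h5
    exact h5
  · exact fun h => hTa _ _ h

/-- Cancellation for modules. -/
theorem cancel_module [Finite O] [Finite A] [Finite B] (GO : SimpleGraph O) (P : O → Prop)
    (H : SimpleGraph A) (H' : SimpleGraph B) (e : att GO P H ≃g att GO P H') :
    Nonempty (H ≃g H') := by
  have hid : Nonempty (Inj H H) := ⟨⟨id, Function.injective_id, fun _ _ h => h⟩⟩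
  have hid' : Nonempty (Inj H' H') := ⟨⟨id, Function.injective_id, fun _ _ h => h⟩⟩
  have h1 := inj_eq GO P H H' e _ A H rfl
  have h2 := inj_eq GO P H H' e _ B H' rfl
  have p1 : 0 < Nat.card (Inj H H) := Nat.card_pos
  have p2 : 0 < Nat.card (Inj H' H') := Nat.card_pos
  rw [h1] at p1
  rw [← h2] at p2
  obtain ⟨T⟩ := (Nat.card_pos_iff.1 p1).1
  obtain ⟨T'⟩ := (Nat.card_pos_iff.1 p2).1
  exact iso_of_inj H H' T T'

/-- Composition of the game with a fixed outside part. -/
theorem bf_att {W : Type} (GO : SimpleGraph O) (P : O → Prop) {GA : SimpleGraph A}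
    {H : SimpleGraph W} :
    ∀ {k : ℕ} {R : A → W → Prop}, Bf GA H k R →
      Bf (att GO P GA) (att GO P H) k (fun z w => (∃ x, z = Sum.inl x ∧ w = Sum.inl x) ∨
        ∃ a b, z = Sum.inr a ∧ w = Sum.inr b ∧ R a b) := by
  have hA : ∀ {R : A → W → Prop}, Atom GA H R →
      Atom (att GO P GA) (att GO P H) (fun z w => (∃ x, z = Sum.inl x ∧ w = Sum.inl x) ∨
        ∃ a b, z = Sum.inr a ∧ w = Sum.inr b ∧ R a b) := by
    rintro R h z w z' w' (⟨x, rfl, rfl⟩ | ⟨a, b, rfl, rfl, hab⟩)
      (⟨x', rfl, rfl⟩ | ⟨a', b', rfl, rfl, hab'⟩)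
    · exact ⟨by simp, Iff.rfl⟩
    · exact ⟨by simp, Iff.rfl⟩
    · exact ⟨by simp, Iff.rfl⟩
    · obtain ⟨e1, e2⟩ := h _ _ _ _ hab hab'
      exact ⟨by simpa using e1, e2⟩
  intro k
  induction k with
  | zero => exact fun h => hA h
  | succ k ih =>
    intro R h
    refine ⟨hA h.1, ?_, ?_⟩
    · rintro (x | a)
      · refine ⟨Sum.inl x, (ih h.down).mono ?_⟩
        rintro z w (h1 | ⟨rfl, rfl⟩)
        · exact h1
        · exact Or.inl ⟨x, rfl, rfl⟩
      · obtain ⟨b, hb⟩ := h.2.1 a
        refine ⟨Sum.inr b, (ih hb).mono ?_⟩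
        rintro z w ((h1 | ⟨a', b', rfl, rfl, h1⟩) | ⟨rfl, rfl⟩)
        · exact Or.inl h1
        · exact Or.inr ⟨a', b', rfl, rfl, Or.inl h1⟩
        · exact Or.inr ⟨a, b, rfl, rfl, Or.inr ⟨rfl, rfl⟩⟩
    · rintro (x | b)
      · refine ⟨Sum.inl x, (ih h.down).mono ?_⟩
        rintro z w (h1 | ⟨rfl, rfl⟩)
        · exact h1
        · exact Or.inl ⟨x, rfl, rfl⟩
      · obtain ⟨a, ha⟩ := h.2.2 b
        refine ⟨Sum.inr a, (ih ha).mono ?_⟩
        rintro z w ((h1 | ⟨a', b', rfl, rfl, h1⟩) | ⟨rfl, rfl⟩)
        · exact Or.inl h1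
        · exact Or.inr ⟨a', b', rfl, rfl, Or.inl h1⟩
        · exact Or.inr ⟨a, b, rfl, rfl, Or.inr ⟨rfl, rfl⟩⟩

theorem dep_att [Finite O] [Finite A] {GO : SimpleGraph O} {P : O → Prop} {GA : SimpleGraph A}
    {k : ℕ} (h : Dep k (att GO P GA)) : Dep k GA := by
  intro W _ _ H hH
  obtain ⟨e⟩ := h (O ⊕ W) (att GO P H) ((bf_att GO P hH).mono (fun _ _ h => h.elim))
  exact cancel_module GO P GA H e

/-- `M` is a module of `G`. -/
def IsModule (G : SimpleGraph V) (M : Set V) : Prop :=
  ∀ v, v ∉ M → ∀ x ∈ M, ∀ y ∈ M, G.Adj v x → G.Adj v y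

open Classical in
/-- The graph induced on a module is defined in the depth of the graph. -/
theorem dep_module [Finite V] {G : SimpleGraph V} {k : ℕ} (h : Dep k G) {M : Set V}
    (hM : IsModule G M) (hne : M.Nonempty) : Dep k (G.induce M) := by
  obtain ⟨m, hm⟩ := hne
  have e : att (G.induce Mᶜ) (fun v : (Mᶜ : Set V) => G.Adj v m) (G.induce M)
      ≃g G := by
    refine ⟨(Equiv.sumComm _ _).trans (Equiv.Set.sumCompl M), ?_⟩
    rintro (x | x) (y | y)
    · exact Iff.rfl
    · change G.Adj x y ↔ G.Adj x m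
      exact ⟨fun h => hM x x.2 y y.2 m hm h, fun h => hM x x.2 m hm y y.2 h⟩
    · change G.Adj x y ↔ G.Adj y m
      rw [G.adj_comm]
      exact ⟨fun h => hM y y.2 x x.2 m hm h, fun h => hM y y.2 m hm x x.2 h⟩
    · exact Iff.rfl
  exact dep_att (h.iso e.symm)

/-- If an optimal graph has a large module, one vertex less is possible. -/
theorem module_step {n C : ℕ} (G : SimpleGraph (Fin n)) (hG : logicalDepth G = q n)
    (M : Set (Fin n)) (hM : IsModule G M) (hne : M.Nonempty) (hne' : (Mᶜ).Nonempty)
    (hs : Nat.card (Mᶜ : Set (Fin n)) ≤ tower (q n + C)) : q (n - 1) ≤ q n + C + 8 := by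
  classical
  have h1 : Dep (q n) (G.induce M) := dep_module ((logicalDepth_le_iff _ _).1 hG.le) hM hne
  set b := Fintype.card M with hb
  set a := Nat.card (Mᶜ : Set (Fin n)) with ha
  have hab : a + b = n := by
    have h2 := Fintype.card_congr (Equiv.Set.sumCompl M)
    rw [Fintype.card_sum, Fintype.card_fin] at h2
    rw [ha, Nat.card_eq_fintype_card]
    omega
  have hb1 : 1 ≤ b := Fintype.card_pos_iff.2 hne.to_subtype
  have ha1 : 1 ≤ a := by
    have := hne'.to_subtype
    rw [ha]
    exact Nat.card_pos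
  have h2 : q b ≤ q n := q_le_iff.2 (reach_of_card rfl (G.induce M) h1)
  rcases Nat.lt_or_ge a 3 with h3 | h3
  · have : a = 1 ∨ a = 2 := by omega
    rcases this with h4 | h4
    · rw [show n - 1 = b by omega]
      omega
    · have h5 := q_succ hb1
      rw [show n - 1 = b + 1 by omega]
      omega
  · have h4 := q_hub (m := b) (n := a - 2) hb1 (by omega)
    rw [show b + (a - 2) + 1 = n - 1 by omega] at h4
    have h5 := q_le_tower (h := q n + C) (m := a - 2) (by omega) (by omega)
    omega

end Pool.Agent.Lib.MP_4964e1_lc
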