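import Mathlib

/-! Density row for MP_4964e1 (pure numbers). -/

namespace MP_4964e1.N86

open Filter Finset

/-- growth -/
theorem growth (q : ℕ → ℕ)
    (h1 : ∀ m n, 1 ≤ m → 1 ≤ n → q (m + n + 1) ≤ max (q m) (q n) + 1)
    (h2 : ∀ n, 1 ≤ n → q (n + 1) ≤ q n + 1) :
    ∀ b, 1 ≤ b → q b ≤ Nat.log 2 b + q 1 := by
  intro b
  induction b using Nat.strong_induction_on with
  | _ b ih =>
    intro hb
    rcases Nat.lt_or_ge b 2 with h | h
    · have : b = 1 := by omega
      subst this
      omega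
    · rcases Nat.even_or_odd' b with ⟨k, hk | hk⟩
      · rcases Nat.lt_or_ge k 2 with hk2 | hk2
        · have hb2 : b = 2 := by omega
          subst hb2
          have := h2 1 le_rfl
          have hl : Nat.log 2 2 = 1 := by
            simpa using Nat.log_pow (b := 2) (by norm_num) 1
          rw [hl]
          simpa [add_comm] using this
        · have e : b = k + (k - 1) + 1 := by omega
          have hq := h1 k (k - 1) (by omega) (by omega)
          rw [← e] at hq
          have i1 := ih k (by omega) (by omega)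
          have i2 := ih (k - 1) (by omega) (by omega)
          have hl : Nat.log 2 (k - 1) ≤ Nat.log 2 k := Nat.log_mono_right (by omega)
          have hl2 : Nat.log 2 b = Nat.log 2 k + 1 := by
            rw [hk, mul_comm, Nat.log_mul_base (by norm_num) (by omega)]
          have : max (q k) (q (k - 1)) ≤ Nat.log 2 k + q 1 := max_le i1 (by omega)
          omega
      · have hk1 : 1 ≤ k := by omega
        have e : b = k + k + 1 := by omega
        have hq := h1 k k hk1 hk1
        rw [← e] at hq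
        have i1 := ih k (by omega) hk1
        have hl2 : Nat.log 2 k + 1 ≤ Nat.log 2 b := by
          have : Nat.log 2 (k * 2) ≤ Nat.log 2 b := Nat.log_mono_right (by omega)
          rwa [Nat.log_mul_base (by norm_num) (by omega)] at this
        have : max (q k) (q k) = q k := max_self _
        omega

/-- a set with gaps -/
theorem gapset (A : Finset ℕ) (N h M : ℕ) (hh : 1 ≤ h) (hM : 1 ≤ M) (hA : ∀ n ∈ A, n < N)
    (hg : ∀ n ∈ A, ∀ m ∈ A, n < m → m - n < h ∨ M ≤ m - n) :
    A.card ≤ h * (N / M + 1) := by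
  have key : A.card ≤ h * (Finset.range (N / M + 1)).card := by
    refine Finset.card_le_mul_card_image_of_maps_to (f := fun n => n / M) ?_ h ?_
    · intro n hn
      rw [Finset.mem_range]
      have := Nat.div_le_div_right (c := M) (hA n hn).le
      exact Nat.lt_succ_of_le this
    · intro b _
      by_cases hne : (A.filter (fun n => n / M = b)).Nonempty
      · obtain ⟨a, ha, hmin⟩ := Finset.exists_min_image _ (fun n : ℕ => n) hne
        have hsub : A.filter (fun n => n / M = b) ⊆ Finset.Ico a (a + h) := by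
          intro x hx
          have hax : a ≤ x := hmin x hx
          rw [Finset.mem_filter] at ha hx
          rw [Finset.mem_Ico]
          refine ⟨hax, ?_⟩
          rcases Nat.eq_or_lt_of_le hax with he | hlt
          · omega
          · rcases hg a ha.1 x hx.1 hlt with h3 | h3
            · omega
            · exfalso
              have e1 := Nat.div_add_mod a M
              have e2 := Nat.div_add_mod x M
              have m2 := Nat.mod_lt x (show 0 < M by omega)
              rw [ha.2] at e1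
              rw [hx.2] at e2
              omega
        calc _ ≤ (Finset.Ico a (a + h)).card := Finset.card_le_card hsub
          _ = h := by simp
      · rw [Finset.not_nonempty_iff_eq_empty] at hne
        rw [hne]
        simp
  simpa using key

/-- one level -/
theorem level (q : ℕ → ℕ)
    (h1 : ∀ m n, 1 ≤ m → 1 ≤ n → q (m + n + 1) ≤ max (q m) (q n) + 1)
    (h2 : ∀ n, 1 ≤ n → q (n + 1) ≤ q n + 1) (h : ℕ) (hh : 1 ≤ h) (k N : ℕ) :
    ((Finset.range N).filter (fun n => q (n + h) = k ∧ k + 1 < q n)).card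
      ≤ h * (N / 2 ^ (k + 1 - q 1) + 1) := by
  refine gapset _ N h _ hh (Nat.one_le_two_pow) ?_ ?_
  · intro n hn
    exact Finset.mem_range.1 (Finset.mem_filter.1 hn).1
  · intro n hn m hm hnm
    obtain ⟨_, hn1, hn2⟩ := Finset.mem_filter.1 hn
    obtain ⟨_, hm1, hm2⟩ := Finset.mem_filter.1 hm
    by_contra hc
    push Not at hc
    obtain ⟨c1, c2⟩ := hc
    rcases Nat.lt_or_ge (n + h + 1) m with h3 | h3
    · have e : m = (n + h) + (m - n - h - 1) + 1 := by omega
      have hb : 1 ≤ m - n - h - 1 := by omega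
      have hq := h1 (n + h) (m - n - h - 1) (by omega) hb
      rw [← e, hn1] at hq
      have hqb : k < q (m - n - h - 1) := by
        rcases le_total k (q (m - n - h - 1)) with h4 | h4
        · rw [max_eq_right h4] at hq
          omega
        · rw [max_eq_left h4] at hq
          omega
      have hg := growth q h1 h2 (m - n - h - 1) hb
      have hl : k + 1 - q 1 ≤ Nat.log 2 (m - n - h - 1) := by omega
      have hp := Nat.pow_le_of_le_log (by omega) hl
      omega
    · rcases Nat.eq_or_lt_of_le h3 with h4 | h4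
      · have := h2 (n + h) (by omega)
        rw [← h4, hn1] at this
        omega
      · have h5 : m = n + h := by omega
        rw [h5] at hm2
        omega

/-- geometric sum -/
theorem geo (K M : ℕ) :
    ∑ k ∈ Finset.Ico K M, ((1 : ℝ) / 2) ^ (k + 1) ≤ (1 / 2) ^ K := by
  rcases Nat.lt_or_ge M K with h | h
  · rw [Finset.Ico_eq_empty (by omega)]
    simp only [Finset.sum_empty]
    positivity
  · have key : ∑ k ∈ Finset.Ico K M, ((1 : ℝ) / 2) ^ (k + 1) = (1 / 2) ^ K - (1 / 2) ^ M := by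
      induction M, h using Nat.le_induction with
      | base => simp
      | succ m hm ih =>
        rw [Finset.sum_Ico_succ_top hm, ih]
        ring
    rw [key]
    have : (0 : ℝ) ≤ (1 / 2) ^ M := by positivity
    linarith

/-- log over N -/
theorem loglim (h : ℕ) :
    Tendsto (fun N : ℕ => ((Nat.log 2 (N + h) : ℕ) : ℝ) / N) atTop (nhds 0) := by
  have h0 : Tendsto (fun N : ℕ => Real.log (N : ℝ) / (N : ℝ)) atTop (nhds 0) :=
    (Real.isLittleO_log_id_atTop.tendsto_div_nhds_zero).comp tendsto_natCast_atTop_atTop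
  have h3 : Tendsto (fun N : ℕ => Real.log (1 + h) / (N : ℝ)) atTop (nhds 0) :=
    tendsto_const_nhds.div_atTop tendsto_natCast_atTop_atTop
  have h4 : Tendsto (fun N : ℕ => (Real.log (N : ℝ) / (N : ℝ) + Real.log (1 + h) / (N : ℝ))
      / Real.log 2) atTop (nhds 0) := by
    have := (h0.add h3).div_const (Real.log 2)
    simpa using this
  refine squeeze_zero' (Eventually.of_forall fun N => by positivity) ?_ h4
  filter_upwards [eventually_ge_atTop 1] with N hN
  have hN' : (0 : ℝ) < N := by exact_mod_cast hN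
  have e1 : ((Nat.log 2 (N + h) : ℕ) : ℝ) ≤ Real.logb 2 ((N + h : ℕ) : ℝ) :=
    Real.natLog_le_logb _ _
  have e2 : Real.log ((N + h : ℕ) : ℝ) ≤ Real.log (N : ℝ) + Real.log (1 + h) := by
    rw [← Real.log_mul (by positivity) (by positivity)]
    apply Real.log_le_log
    · push_cast
      positivity
    · push_cast
      have : (1 : ℝ) ≤ N := by exact_mod_cast hN
      nlinarith [this, (Nat.cast_nonneg h : (0 : ℝ) ≤ h)]
  have l2 : 0 < Real.log 2 := Real.log_pos (by norm_num)
  rw [Real.logb] at e1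
  calc ((Nat.log 2 (N + h) : ℕ) : ℝ) / N
      ≤ (Real.log ((N + h : ℕ) : ℝ) / Real.log 2) / N := by gcongr
    _ ≤ ((Real.log (N : ℝ) + Real.log (1 + h)) / Real.log 2) / N := by gcongr
    _ = (Real.log (N : ℝ) / (N : ℝ) + Real.log (1 + h) / (N : ℝ)) / Real.log 2 := by
        field_simp

/-- counting bound -/
theorem count (q : ℕ → ℕ)
    (h1 : ∀ m n, 1 ≤ m → 1 ≤ n → q (m + n + 1) ≤ max (q m) (q n) + 1)
    (h2 : ∀ n, 1 ≤ n → q (n + 1) ≤ q n + 1)
    (h3 : ∀ K, ∃ n0, ∀ n, n0 ≤ n → K ≤ q n) (h : ℕ) (hh : 1 ≤ h) (K : ℕ) :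
    ∃ n0, ∀ N, ((Finset.range N).filter
        (fun n => ¬ (q (n + h) ≤ q n + 1 ∧ q n ≤ q (n + h) + 1))).card
      ≤ n0 + ∑ k ∈ Finset.Ico K (Nat.log 2 (N + h) + q 1 + 1),
          h * (N / 2 ^ (k + 1 - q 1) + 1) := by
  obtain ⟨a, ha⟩ := h3 (q (h - 1))
  obtain ⟨b, hb⟩ := h3 K
  refine ⟨max 1 (max a b), fun N => ?_⟩
  have hsub : (Finset.range N).filter
        (fun n => ¬ (q (n + h) ≤ q n + 1 ∧ q n ≤ q (n + h) + 1))
      ⊆ Finset.range (max 1 (max a b)) ∪
        (Finset.Ico K (Nat.log 2 (N + h) + q 1 + 1)).biUnion (fun k =>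
          (Finset.range N).filter (fun n => q (n + h) = k ∧ k + 1 < q n)) := by
    intro n hn
    obtain ⟨hnN, hn1⟩ := Finset.mem_filter.1 hn
    rw [Finset.mem_union]
    by_cases hlt : n < max 1 (max a b)
    · exact Or.inl (Finset.mem_range.2 hlt)
    · right
      have g1 : 1 ≤ n := le_trans (le_max_left _ _) (not_lt.1 hlt)
      have g2 : a ≤ n := le_trans (le_trans (le_max_left _ _) (le_max_right _ _)) (not_lt.1 hlt)
      have g3 : b ≤ n := le_trans (le_trans (le_max_right _ _) (le_max_right _ _)) (not_lt.1 hlt)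
      have hup : q (n + h) ≤ q n + 1 := by
        rcases Nat.lt_or_ge h 2 with h4 | h4
        · have : h = 1 := by omega
          subst this
          exact h2 n g1
        · have e : n + h = n + (h - 1) + 1 := by omega
          rw [e]
          refine (h1 n (h - 1) g1 (by omega)).trans ?_
          rw [max_eq_left (ha n g2)]
      have hdn : q (n + h) + 1 < q n := by
        by_contra hc
        exact hn1 ⟨hup, by omega⟩
      rw [Finset.mem_biUnion]
      refine ⟨q (n + h), ?_, Finset.mem_filter.2 ⟨hnN, rfl, hdn⟩⟩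
      rw [Finset.mem_Ico]
      refine ⟨hb (n + h) (by omega), ?_⟩
      have hg := growth q h1 h2 (n + h) (by omega)
      have hm : Nat.log 2 (n + h) ≤ Nat.log 2 (N + h) :=
        Nat.log_mono_right (by have := Finset.mem_range.1 hnN; omega)
      omega
  refine (Finset.card_le_card hsub).trans ?_
  refine (Finset.card_union_le _ _).trans ?_
  rw [Finset.card_range]
  refine Nat.add_le_add_left ?_ _
  refine (Finset.card_biUnion_le).trans ?_
  exact Finset.sum_le_sum fun k _ => level q h1 h2 h hh k N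

/-- density zero -/
theorem num86 (q : ℕ → ℕ)
    (h1 : ∀ m n, 1 ≤ m → 1 ≤ n → q (m + n + 1) ≤ max (q m) (q n) + 1)
    (h2 : ∀ n, 1 ≤ n → q (n + 1) ≤ q n + 1)
    (h3 : ∀ K, ∃ n0, ∀ n, n0 ≤ n → K ≤ q n) (h : ℕ) :
    Tendsto (fun N : ℕ => ((((Finset.range N).filter
        (fun n => ¬ (q (n + h) ≤ q n + 1 ∧ q n ≤ q (n + h) + 1))).card : ℕ) : ℝ) / N)
      atTop (nhds 0) := by
  rcases Nat.eq_zero_or_pos h with h0 | hh
  · subst h0
    simp
  rw [Metric.tendsto_atTop']
  intro ε hε
  have hpow : Tendsto (fun j : ℕ => (h : ℝ) * (1 / 2) ^ j) atTop (nhds 0) := by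
    simpa using (tendsto_pow_atTop_nhds_zero_of_lt_one (by norm_num)
      (by norm_num : (1 / 2 : ℝ) < 1)).const_mul (h : ℝ)
  obtain ⟨j, hj⟩ := ((tendsto_order.1 hpow).2 (ε / 2) (by linarith)).exists
  obtain ⟨n0, hn0⟩ := count q h1 h2 h3 h hh (q 1 + j)
  have hlim : Tendsto (fun N : ℕ => (n0 : ℝ) / N + (h : ℝ) *
      (((Nat.log 2 (N + h) : ℕ) : ℝ) / N + ((q 1 + 1 : ℕ) : ℝ) / N)) atTop (nhds 0) := by
    have t1 : Tendsto (fun N : ℕ => (n0 : ℝ) / N) atTop (nhds 0) :=
      tendsto_const_nhds.div_atTop tendsto_natCast_atTop_atTop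
    have t2 : Tendsto (fun N : ℕ => ((q 1 + 1 : ℕ) : ℝ) / N) atTop (nhds 0) :=
      tendsto_const_nhds.div_atTop tendsto_natCast_atTop_atTop
    have := t1.add (((loglim h).add t2).const_mul (h : ℝ))
    simpa using this
  obtain ⟨N0, hN0⟩ := eventually_atTop.1 ((tendsto_order.1 hlim).2 (ε / 2) (by linarith))
  refine ⟨max N0 1, fun N hN => ?_⟩
  have hN1 : N0 ≤ N := le_trans (le_max_left _ _) hN.le
  have hN2 : 1 ≤ N := le_trans (le_max_right _ _) hN.le
  have hNp : (0 : ℝ) < N := by exact_mod_cast hN2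
  have hb := hN0 N hN1
  have hc := hn0 N
  rw [Real.dist_eq, sub_zero, abs_of_nonneg (by positivity)]
  have hc' : ((((Finset.range N).filter
        (fun n => ¬ (q (n + h) ≤ q n + 1 ∧ q n ≤ q (n + h) + 1))).card : ℕ) : ℝ)
      ≤ n0 + h * (N * (1 / 2) ^ j) + h * ((Nat.log 2 (N + h) : ℕ) + (q 1 + 1 : ℕ)) := by
    have hs : ((∑ k ∈ Finset.Ico (q 1 + j) (Nat.log 2 (N + h) + q 1 + 1),
          h * (N / 2 ^ (k + 1 - q 1) + 1) : ℕ) : ℝ)
        ≤ h * (N * (1 / 2) ^ j) + h * ((Nat.log 2 (N + h) : ℕ) + (q 1 + 1 : ℕ)) := by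
      have s1 : ((∑ k ∈ Finset.Ico (q 1 + j) (Nat.log 2 (N + h) + q 1 + 1),
          h * (N / 2 ^ (k + 1 - q 1) + 1) : ℕ) : ℝ)
          ≤ ∑ k ∈ Finset.Ico (q 1 + j) (Nat.log 2 (N + h) + q 1 + 1),
            ((h : ℝ) * (N * (2 ^ q 1 * (1 / 2) ^ (k + 1))) + h) := by
        rw [Nat.cast_sum]
        refine Finset.sum_le_sum fun k hk => ?_
        rw [Finset.mem_Ico] at hk
        push_cast
        have d1 : ((N / 2 ^ (k + 1 - q 1) : ℕ) : ℝ) ≤ (N : ℝ) / (2 ^ (k + 1 - q 1)) := by
          have := @Nat.cast_div_le ℝ _ _ _ N (2 ^ (k + 1 - q 1))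
          simpa using this
        have d2 : (N : ℝ) / (2 ^ (k + 1 - q 1)) = N * (2 ^ q 1 * (1 / 2) ^ (k + 1)) := by
          have e : k + 1 = (k + 1 - q 1) + q 1 := by omega
          have e2 : ((1 : ℝ) / 2) ^ (k + 1) = (1 / 2) ^ (k + 1 - q 1) * (1 / 2) ^ (q 1) := by
            rw [← pow_add, ← e]
          rw [e2, div_eq_mul_inv]
          congr 1
          rw [mul_comm, mul_assoc, ← mul_pow]
          norm_num
          rw [one_div, inv_pow]
        rw [← d2]
        have hh0 : (0 : ℝ) ≤ h := Nat.cast_nonneg h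
        nlinarith [mul_le_mul_of_nonneg_left d1 hh0]
      refine s1.trans ?_
      rw [Finset.sum_add_distrib, ← Finset.mul_sum, ← Finset.mul_sum, ← Finset.mul_sum,
        Finset.sum_const, Nat.card_Ico, nsmul_eq_mul]
      have g := geo (q 1 + j) (Nat.log 2 (N + h) + q 1 + 1)
      have g' : (2 : ℝ) ^ q 1 * ∑ k ∈ Finset.Ico (q 1 + j) (Nat.log 2 (N + h) + q 1 + 1),
          ((1 : ℝ) / 2) ^ (k + 1) ≤ (1 / 2) ^ j := by
        have hp : (0 : ℝ) ≤ 2 ^ q 1 := by positivity
        refine (mul_le_mul_of_nonneg_left g hp).trans (le_of_eq ?_)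
        rw [pow_add, ← mul_assoc, ← mul_pow]
        norm_num
      have hh0 : (0 : ℝ) ≤ h := Nat.cast_nonneg h
      have c1 : (((Nat.log 2 (N + h) + q 1 + 1 - (q 1 + j) : ℕ)) : ℝ)
          ≤ (Nat.log 2 (N + h) : ℕ) + (q 1 + 1 : ℕ) := by
        have : Nat.log 2 (N + h) + q 1 + 1 - (q 1 + j) ≤ Nat.log 2 (N + h) + (q 1 + 1) := by
          omega
        exact_mod_cast this
      have c2 := mul_le_mul_of_nonneg_left (mul_le_mul_of_nonneg_left g' hNp.le) hh0
      have c3 := mul_le_mul_of_nonneg_left c1 hh0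
      linarith
    have hcR : ((((Finset.range N).filter
        (fun n => ¬ (q (n + h) ≤ q n + 1 ∧ q n ≤ q (n + h) + 1))).card : ℕ) : ℝ)
        ≤ n0 + ((∑ k ∈ Finset.Ico (q 1 + j) (Nat.log 2 (N + h) + q 1 + 1),
          h * (N / 2 ^ (k + 1 - q 1) + 1) : ℕ) : ℝ) := by
      exact_mod_cast hc
    linarith
  rw [div_lt_iff₀ hNp]
  have hfin : (n0 : ℝ) / N + (h : ℝ) *
      (((Nat.log 2 (N + h) : ℕ) : ℝ) / N + ((q 1 + 1 : ℕ) : ℝ) / N)
      = (n0 + h * ((Nat.log 2 (N + h) : ℕ) + (q 1 + 1 : ℕ))) / N := by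
    field_simp
  rw [hfin, div_lt_iff₀ hNp] at hb
  have : (h : ℝ) * (N * (1 / 2) ^ j) < ε / 2 * N := by
    have := mul_lt_mul_of_pos_right hj hNp
    linarith
  linarith

end MP_4964e1.N86
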