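import Pool.Agent.Lib.MP_4964e1_lc.TR86
import Pool.Agent.Lib.MP_4964e1_lc.Fin71
import Pool.Agent.Lib.MP_4964e1_lc.Eff86

/-!
`q m ≤ h + 7` for all `m ≤ tower h + 1`; the number of `n` with `q n ≤ k`; effective forms of the
almost all theorem and of the count of the large drops.
-/

namespace Pool.Agent.Lib.MP_4964e1_lc

open Finset

/-- The tower of the problem file. -/
def tower : ℕ → ℕ
  | 0 => 1
  | k + 1 => 2 ^ tower k

theorem one_le_tower (h : ℕ) : 1 ≤ tower h := by
  cases h with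
  | zero => exact le_rfl
  | succ h => exact Nat.one_le_two_pow

theorem two_mul_tower (h : ℕ) : 2 * tower h ≤ tower (h + 1) := by
  change 2 * tower h ≤ 2 ^ tower h
  obtain ⟨c, hc⟩ : ∃ c, tower h = c + 1 := ⟨tower h - 1, by have := one_le_tower h; omega⟩
  rw [hc, pow_succ]
  have : c < 2 ^ c := Nat.lt_two_pow_self
  omega

/-- sum of the reciprocals -/
theorem sum_tower (h H : ℕ) :
    ∑ j ∈ Finset.Ico h H, (1 : ℝ) / tower j ≤ 2 / tower h := by
  rcases Nat.lt_or_ge H h with hH | hH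
  · rw [Finset.Ico_eq_empty (by omega)]
    simp only [Finset.sum_empty]
    positivity
  · have key : ∑ j ∈ Finset.Ico h H, (1 : ℝ) / tower j ≤ 2 / tower h - 2 / tower H := by
      induction H, hH using Nat.le_induction with
      | base => simp
      | succ m hm ih =>
        rw [Finset.sum_Ico_succ_top hm]
        have h1 : (0 : ℝ) < tower m := by exact_mod_cast one_le_tower m
        have h2 : (0 : ℝ) < tower (m + 1) := by exact_mod_cast one_le_tower (m + 1)
        have h3 : (2 : ℝ) * tower m ≤ tower (m + 1) := by exact_mod_cast two_mul_tower m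
        have h4 : (2 : ℝ) / tower (m + 1) ≤ 1 / tower m := by
          rw [div_le_div_iff₀ h2 h1]
          linarith
        have h5 : (2 : ℝ) / tower m = 1 / tower m + 1 / tower m := by ring
        linarith
    have : (0 : ℝ) ≤ 2 / tower H := by positivity
    linarith

/-- sizes of the full levels -/
def full : ℕ → ℕ
  | 0 => 2
  | i + 1 => 2 ^ full i - 1

theorem tower_lt_full (i : ℕ) : tower i + 1 ≤ full i := by
  induction i with
  | zero => exact le_rfl
  | succ i ih =>
    change 2 ^ tower i + 1 ≤ 2 ^ full i - 1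
    have h1 : 2 ^ (tower i + 1) ≤ 2 ^ full i := Nat.pow_le_pow_right (by norm_num) ih
    have h2 : 2 ^ 1 ≤ 2 ^ tower i := Nat.pow_le_pow_right (by norm_num) (one_le_tower i)
    rw [pow_succ] at h1
    omega

/-- sizes of the levels for `M` nodes -/
def lev (M i : ℕ) : ℕ := min (full i) (M - ∑ j ∈ Finset.range i, full j)

theorem lev_lt (M i : ℕ) : lev M (i + 1) < 2 ^ lev M i := by
  unfold lev
  rw [Finset.sum_range_succ]
  rcases Nat.lt_or_ge (M - ∑ j ∈ Finset.range i, full j) (full i) with h | h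
  · have : M - (∑ j ∈ Finset.range i, full j + full i) = 0 := by omega
    rw [this, Nat.min_zero]
    positivity
  · rw [min_eq_left h]
    have h1 : full (i + 1) < 2 ^ full i := by
      change 2 ^ full i - 1 < 2 ^ full i
      have : 1 ≤ 2 ^ full i := Nat.one_le_two_pow
      omega
    exact lt_of_le_of_lt (min_le_left _ _) h1

theorem sum_lev (M k : ℕ) :
    ∑ i ∈ Finset.range k, lev M i = min (∑ i ∈ Finset.range k, full i) M := by
  induction k with
  | zero => simp
  | succ k ih =>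
    rw [Finset.sum_range_succ, Finset.sum_range_succ, ih]
    unfold lev
    omega

/-- the nodes as a sigma type -/
def nodeEquiv (h : ℕ) (n : ℕ → ℕ) :
    (Σ i : Fin (h + 1), Fin (n i)) ≃ {p : ℕ × ℕ // p.1 ≤ h ∧ p.2 < n p.1} where
  toFun x := ⟨(x.1.1, x.2.1), Nat.lt_succ_iff.1 x.1.2, x.2.2⟩
  invFun p := ⟨⟨p.1.1, Nat.lt_succ_iff.2 p.2.1⟩, ⟨p.1.2, p.2.2⟩⟩
  left_inv _ := rfl
  right_inv _ := rfl

/-- Every number up to `tower h + 1` is reached in depth `h + 7`. -/
theorem q_le_tower {h m : ℕ} (h1 : 1 ≤ m) (hm : m ≤ tower h + 1) : q m ≤ h + 7 := by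
  rw [q_le_iff]
  rcases Nat.lt_or_ge m 4 with h4 | h4
  · have := exists_dep (⊥ : SimpleGraph (Fin m))
    rw [Fintype.card_fin] at this
    exact ⟨⊥, this.mono (by omega)⟩
  · let _ : Fintype {p : ℕ × ℕ // p.1 ≤ h ∧ p.2 < lev (m - 3) p.1} :=
      Fintype.ofEquiv _ (nodeEquiv h (lev (m - 3)))
    have hcard : Fintype.card (LV h (lev (m - 3))) = m := by
      rw [Fintype.card_sum, Fintype.card_fin,
        ← Fintype.card_congr (nodeEquiv h (lev (m - 3))), Fintype.card_sigma]
      simp only [Fintype.card_fin]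
      rw [← Finset.sum_range (fun i => lev (m - 3) i), sum_lev]
      have h5 : full h ≤ ∑ i ∈ Finset.range (h + 1), full i :=
        Finset.single_le_sum (f := full) (fun _ _ => Nat.zero_le _)
          (Finset.mem_range.2 (Nat.lt_succ_self h))
      have h6 := tower_lt_full h
      omega
    refine reach_of_card hcard (lay h (lev (m - 3))) (dep_lay h _ ?_ (lev_lt _))
    exact min_le_left _ _

/-- bound for the number of types of `m`-tuples in depth `k` -/
def tc : ℕ → ℕ → ℕ
  | 0, m => 2 ^ (2 * (m * m))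
  | k + 1, m => 2 ^ (2 * (m * m)) * 2 ^ tc k (m + 1)

/-- Finitely many types of tuples, with a bound. -/
theorem exists_types_card : ∀ (k m : ℕ), ∃ (T : Type) (_ : Fintype T)
    (f : ∀ (V : Type), SimpleGraph V → (Fin m → V) → T),
    Fintype.card T ≤ tc k m ∧
    ∀ (V W : Type) (G : SimpleGraph V) (H : SimpleGraph W) (v : Fin m → V) (w : Fin m → W),
      f V G v = f W H w → Bf G H k (rel v w) := by
  classical
  intro k
  have hat : ∀ (m : ℕ) (V W : Type) (G : SimpleGraph V) (H : SimpleGraph W) (v : Fin m → V)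
      (w : Fin m → W),
      (fun p : Fin m × Fin m => (v p.1 = v p.2, G.Adj (v p.1) (v p.2))) =
        (fun p : Fin m × Fin m => (w p.1 = w p.2, H.Adj (w p.1) (w p.2))) →
      Atom G H (rel v w) := by
    rintro m V W G H v w h a b c d ⟨i, rfl, rfl⟩ ⟨j, rfl, rfl⟩
    have h1 := congrFun h (i, j)
    simp only [Prod.mk.injEq] at h1
    exact ⟨h1.1 ▸ Iff.rfl, h1.2 ▸ Iff.rfl⟩
  have hcd : ∀ m : ℕ, Fintype.card (Fin m × Fin m → Prop × Prop) = 2 ^ (2 * (m * m)) := by
    intro m
    rw [Fintype.card_fun, Fintype.card_prod, Fintype.card_prod, Fintype.card_fin,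
      Fintype.card_prop, show (2 * 2 : ℕ) = 2 ^ 2 by norm_num, ← pow_mul]
  induction k with
  | zero =>
    intro m
    exact ⟨Fin m × Fin m → Prop × Prop, inferInstance,
      fun V G v p => (v p.1 = v p.2, G.Adj (v p.1) (v p.2)), (hcd m).le,
      fun V W G H v w h => hat m V W G H v w h⟩
  | succ k ih =>
    intro m
    obtain ⟨T, hT, f, hc, hf⟩ := ih (m + 1)
    refine ⟨(Fin m × Fin m → Prop × Prop) × Set T, inferInstance,
      fun V G v => (fun p => (v p.1 = v p.2, G.Adj (v p.1) (v p.2)),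
        Set.range fun x => f V G (Fin.snoc v x)), ?_, fun V W G H v w h => ?_⟩
    · rw [Fintype.card_prod, hcd, Fintype.card_set]
      exact Nat.mul_le_mul_left _ (Nat.pow_le_pow_right (by norm_num) hc)
    simp only [Prod.mk.injEq] at h
    refine ⟨hat m V W G H v w h.1, fun x => ?_, fun y => ?_⟩
    · have hx : f V G (Fin.snoc v x) ∈ Set.range fun y => f W H (Fin.snoc w y) := by
        rw [← h.2]
        exact ⟨x, rfl⟩
      obtain ⟨y, hy⟩ := hx
      exact ⟨y, rel_snoc v w x y ▸ hf _ _ _ _ _ _ hy.symm⟩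
    · have hy : f W H (Fin.snoc w y) ∈ Set.range fun x => f V G (Fin.snoc v x) := by
        rw [h.2]
        exact ⟨y, rfl⟩
      obtain ⟨x, hx⟩ := hy
      exact ⟨x, rel_snoc v w x y ▸ hf _ _ _ _ _ _ hx⟩

/-- iterated exponentials -/
def ex : ℕ → ℕ → ℕ
  | 0, x => x
  | j + 1, x => 2 ^ ex j x

theorem ex_succ_le (j x : ℕ) : ex j x + 1 ≤ ex j (x + 1) := by
  induction j with
  | zero => exact le_rfl
  | succ j ih =>
    change 2 ^ ex j x + 1 ≤ 2 ^ ex j (x + 1)
    have h1 : 2 ^ (ex j x + 1) ≤ 2 ^ ex j (x + 1) := Nat.pow_le_pow_right (by norm_num) ih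
    have h2 : 1 ≤ 2 ^ ex j x := Nat.one_le_two_pow
    rw [pow_succ] at h1
    omega

theorem ex_mono (j : ℕ) {x y : ℕ} (h : x ≤ y) : ex j x ≤ ex j y := by
  induction j with
  | zero => exact h
  | succ j ih => exact Nat.pow_le_pow_right (by norm_num) ih

theorem le_ex (j x : ℕ) : x ≤ ex j x := by
  induction j with
  | zero => exact le_rfl
  | succ j ih => exact ih.trans (Nat.lt_two_pow_self).le

theorem two_mul_ex (j x : ℕ) : 2 * ex (j + 1) x ≤ ex (j + 1) (x + 1) := by
  change 2 * 2 ^ ex j x ≤ 2 ^ ex j (x + 1)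
  have h1 : 2 ^ (ex j x + 1) ≤ 2 ^ ex j (x + 1) := Nat.pow_le_pow_right (by norm_num)
    (ex_succ_le j x)
  rw [pow_succ] at h1
  omega

theorem tc_le (k : ℕ) : ∀ j m, j + m = k → tc j m ≤ ex (j + 1) (2 * (k * k) + j) := by
  intro j
  induction j with
  | zero =>
    intro m hm
    have : m = k := by omega
    subst this
    exact le_rfl
  | succ j ih =>
    intro m hm
    have h1 := ih (m + 1) (by omega)
    change 2 ^ (2 * (m * m)) * 2 ^ tc j (m + 1) ≤ 2 ^ ex (j + 1) (2 * (k * k) + (j + 1))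
    rw [← pow_add]
    refine Nat.pow_le_pow_right (by norm_num) ?_
    have h2 : m * m ≤ k * k := Nat.mul_le_mul (by omega) (by omega)
    have h3 := le_ex (j + 1) (2 * (k * k) + j)
    have h4 := two_mul_ex j (2 * (k * k) + j)
    rw [show 2 * (k * k) + (j + 1) = 2 * (k * k) + j + 1 by ring]
    omega

theorem ex_tower (j a : ℕ) : ex j (tower a) = tower (j + a) := by
  induction j with
  | zero => simp [ex]
  | succ j ih =>
    rw [show j + 1 + a = (j + a) + 1 by ring]
    change 2 ^ ex j (tower a) = 2 ^ tower (j + a)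
    rw [ih]

theorem tc_le_tower (k a : ℕ) (ha : 2 * (k * k) + k ≤ tower a) : tc k 0 ≤ tower (k + 1 + a) := by
  have h1 := tc_le k k 0 (by omega)
  have h2 := ex_mono (k + 1) ha
  rw [ex_tower] at h2
  exact h1.trans h2

/-- At most `tower (k + 1 + a)` numbers are reached in depth `k`. -/
theorem low_count (k a : ℕ) (ha : 2 * (k * k) + k ≤ tower a) (S : Finset ℕ)
    (hS : ∀ n ∈ S, 1 ≤ n ∧ q n ≤ k) : S.card ≤ tower (k + 1 + a) := by
  classical
  obtain ⟨T, hT, f, hc, hf⟩ := exists_types_card k 0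
  have key : ∀ n : S, ∃ G : SimpleGraph (Fin n), Dep k G :=
    fun n => q_le_iff.1 (hS n n.2).2
  choose G hG using key
  have hinj : Function.Injective (fun n : S => f (Fin n) (G n) Fin.elim0) := by
    intro a b h
    have h1 := hf _ _ _ _ _ _ h
    rw [rel_zero] at h1
    have : Nonempty (Fin (b : ℕ)) := ⟨⟨0, (hS b b.2).1⟩⟩
    obtain ⟨e⟩ := hG a (Fin b) (G b) h1
    apply Subtype.ext
    have h2 := Fintype.card_congr e.toEquiv
    simpa using h2
  have h3 := Fintype.card_le_of_injective _ hinj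
  rw [Fintype.card_coe] at h3
  exact h3.trans (hc.trans (tc_le_tower k a ha))

/-- one top level, general step -/
theorem top_step (s C l h N : ℕ) (hs : 1 ≤ s) (hC : 1 ≤ C) (hl : h + 9 ≤ l) :
    ((Finset.Icc 1 N).filter (fun n => q (n + s) + C < q n ∧ q n = l)).card
      ≤ s * ((N + 1) / tower h + 1) := by
  refine MP_4964e1.N86.gapset _ (N + 1) s (tower h) hs (one_le_tower h) ?_ ?_
  · intro n hn
    have := Finset.mem_Icc.1 (Finset.mem_filter.1 hn).1
    omega
  · intro n hn m hm hnm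
    obtain ⟨hn0, hn1, hn2⟩ := Finset.mem_filter.1 hn
    obtain ⟨_, hm1, hm2⟩ := Finset.mem_filter.1 hm
    have hn3 := Finset.mem_Icc.1 hn0
    rcases Nat.lt_or_ge (n + s + 1) m with h3 | h3
    · right
      have e : m = (n + s) + (m - n - s - 1) + 1 := by omega
      have hb : 1 ≤ m - n - s - 1 := by omega
      have hq := q_hub (m := n + s) (n := m - n - s - 1) (by omega) hb
      rw [← e, hm2] at hq
      have hqb : l ≤ q (m - n - s - 1) + 1 := by
        rcases le_total (q (n + s)) (q (m - n - s - 1)) with h4 | h4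
        · rw [max_eq_right h4] at hq
          exact hq
        · rw [max_eq_left h4] at hq
          omega
      by_contra hc
      have hq2 := q_le_tower (h := h) (m := m - n - s - 1) hb (by omega)
      omega
    · left
      by_contra hc
      rcases Nat.eq_or_lt_of_le h3 with h4 | h4
      · have := q_succ (n := n + s) (by omega)
        rw [← h4, hm2] at this
        omega
      · have h5 : m = n + s := by omega
        rw [h5] at hm2
        omega

/-- sum over the top levels -/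
theorem sum_levels (s h H N : ℕ) :
    ((∑ j ∈ Finset.Ico h H, s * ((N + 1) / tower j + 1) : ℕ) : ℝ)
      ≤ s * (2 * (N + 1) / tower h + (H - h : ℕ)) := by
  have hreal : ((∑ j ∈ Finset.Ico h H, s * ((N + 1) / tower j + 1) : ℕ) : ℝ) ≤
      ∑ j ∈ Finset.Ico h H, (s * ((N : ℝ) + 1) * (1 / tower j) + s) := by
    rw [Nat.cast_sum]
    refine Finset.sum_le_sum fun j _ => ?_
    push_cast
    have d1 : (((N + 1) / tower j : ℕ) : ℝ) ≤ ((N + 1 : ℕ) : ℝ) / ((tower j : ℕ) : ℝ) :=
      Nat.cast_div_le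
    push_cast at d1
    have e : s * ((N : ℝ) + 1) * (1 / tower j) = s * (((N : ℝ) + 1) / tower j) := by ring
    rw [e]
    have hs0 : (0 : ℝ) ≤ s := by positivity
    have := mul_le_mul_of_nonneg_left d1 hs0
    linarith
  have hr : ∑ j ∈ Finset.Ico h H, (s * ((N : ℝ) + 1) * (1 / tower j) + s) =
      s * ((N : ℝ) + 1) * ∑ j ∈ Finset.Ico h H, (1 : ℝ) / tower j + ((H - h : ℕ) : ℝ) * s := by
    rw [Finset.sum_add_distrib, ← Finset.mul_sum, Finset.sum_const, Nat.card_Ico, nsmul_eq_mul]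
  rw [hr] at hreal
  have hs1 := sum_tower h H
  have hN0 : (0 : ℝ) ≤ s * ((N : ℝ) + 1) := by positivity
  have e1 := mul_le_mul_of_nonneg_left hs1 hN0
  have e2 : s * ((N : ℝ) + 1) * (2 / tower h) = s * (2 * (N + 1) / tower h) := by ring
  rw [e2] at e1
  have e3 : (s : ℝ) * (2 * (N + 1) / tower h + (H - h : ℕ)) =
    s * (2 * (N + 1) / tower h) + ((H - h : ℕ) : ℝ) * s := by ring
  rw [e3]
  linarith

/-- Effective form of the almost all theorem. -/
theorem almost_eff (s h H a N : ℕ) (hs : 1 ≤ s) (hsh : s ≤ tower h) (hN : N ≤ tower H)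
    (ha : 2 * ((h + 8) * (h + 8)) + (h + 8) ≤ tower a) :
    ((((Finset.Icc 1 N).filter
      (fun n => q (n + s) + 1 < q n ∨ q n + 1 < q (n + s))).card : ℕ) : ℝ)
      ≤ s * (2 * (N + 1) / tower h + (H - h : ℕ)) + tower (h + 9 + a) := by
  classical
  set A := (Finset.Icc 1 N).filter (fun n => q (n + s) + 1 < q n ∨ q n + 1 < q (n + s)) with hA
  have hsub : A ⊆ (A.filter (fun n => q n ≤ h + 8)) ∪
      (Finset.Ico h H).biUnion (fun j =>
        (Finset.Icc 1 N).filter (fun n => q (n + s) + 1 < q n ∧ q n = j + 9)) := by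
    intro n hn
    rw [Finset.mem_union]
    rcases Nat.lt_or_ge (h + 8) (q n) with hq | hq
    · right
      rw [hA] at hn
      obtain ⟨hn0, hn1⟩ := Finset.mem_filter.1 hn
      have hn3 := Finset.mem_Icc.1 hn0
      have h4 := q_le_tower (h := H) (m := n) hn3.1 (by omega)
      have hdown : q (n + s) + 1 < q n := by
        rcases hn1 with h5 | h5
        · exact h5
        · exfalso
          rcases Nat.lt_or_ge s 2 with h6 | h6
          · have h7 : s = 1 := by omega
            rw [h7] at h5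
            have := q_succ hn3.1
            omega
          · have h8 := q_hub (m := n) (n := s - 1) hn3.1 (by omega)
            rw [show n + (s - 1) + 1 = n + s by omega] at h8
            have h9 := q_le_tower (h := h) (m := s - 1) (by omega) (by omega)
            rw [max_eq_left (by omega)] at h8
            omega
      simp only [Finset.mem_biUnion, Finset.mem_Ico]
      exact ⟨q n - 9, by omega, Finset.mem_filter.2 ⟨hn0, hdown, by omega⟩⟩
    · left
      exact Finset.mem_filter.2 ⟨hn, hq⟩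
  have hlow : (A.filter (fun n => q n ≤ h + 8)).card ≤ tower (h + 9 + a) :=
    low_count (h + 8) a ha (A.filter (fun n => q n ≤ h + 8)) (fun n hn => by
      obtain ⟨h1, h2⟩ := Finset.mem_filter.1 hn
      rw [hA] at h1
      exact ⟨(Finset.mem_Icc.1 (Finset.mem_filter.1 h1).1).1, h2⟩)
  have hcard2 : A.card ≤ tower (h + 9 + a) +
      ∑ j ∈ Finset.Ico h H, s * ((N + 1) / tower j + 1) := by
    refine (Finset.card_le_card hsub).trans ((Finset.card_union_le _ _).trans
      (Nat.add_le_add hlow (Finset.card_biUnion_le.trans (Finset.sum_le_sum fun j _ => ?_))))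
    exact top_step s 1 (j + 9) j N hs le_rfl le_rfl
  have h1 := sum_levels s h H N
  have h2 : ((A.card : ℕ) : ℝ) ≤ tower (h + 9 + a) +
      ((∑ j ∈ Finset.Ico h H, s * ((N + 1) / tower j + 1) : ℕ) : ℝ) := by
    exact_mod_cast hcard2
  linarith

/-- Tower type count of the drops by more than `h + 6`. -/
theorem tower_count (h H N : ℕ) (hN : N ≤ tower H) :
    ((((Finset.Icc 1 N).filter (fun n => q (n + 1) + (h + 6) < q n)).card : ℕ) : ℝ)
      ≤ 2 * (N + 1) / tower h + (H - h : ℕ) := by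
  classical
  have hsub : (Finset.Icc 1 N).filter (fun n => q (n + 1) + (h + 6) < q n)
      ⊆ (Finset.Ico h H).biUnion (fun j =>
        (Finset.Icc 1 N).filter (fun n => q (n + 1) + (h + 6) < q n ∧ q n = j + 9)) := by
    intro n hn
    obtain ⟨hn0, hn1⟩ := Finset.mem_filter.1 hn
    have hn3 := Finset.mem_Icc.1 hn0
    have h2 := two_le_q (n := n + 1) (by omega)
    have h4 := q_le_tower (h := H) (m := n) hn3.1 (by omega)
    simp only [Finset.mem_biUnion, Finset.mem_Ico]
    exact ⟨q n - 9, by omega, Finset.mem_filter.2 ⟨hn0, hn1, by omega⟩⟩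
  have hcard2 : ((Finset.Icc 1 N).filter (fun n => q (n + 1) + (h + 6) < q n)).card
      ≤ ∑ j ∈ Finset.Ico h H, 1 * ((N + 1) / tower j + 1) :=
    (Finset.card_le_card hsub).trans (Finset.card_biUnion_le.trans
      (Finset.sum_le_sum fun j _ => top_step 1 (h + 6) (j + 9) j N le_rfl (by omega) le_rfl))
  have h1 := sum_levels 1 h H N
  have h2 : ((((Finset.Icc 1 N).filter (fun n => q (n + 1) + (h + 6) < q n)).card : ℕ) : ℝ) ≤
      ((∑ j ∈ Finset.Ico h H, 1 * ((N + 1) / tower j + 1) : ℕ) : ℝ) := by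
    exact_mod_cast hcard2
  have h3 : (((1 : ℕ) : ℝ)) * (2 * (N + 1) / tower h + (H - h : ℕ)) =
    2 * (N + 1) / tower h + (H - h : ℕ) := by
    rw [Nat.cast_one, one_mul]
  rw [h3] at h1
  exact h2.trans h1

/-- Count for every `C`, with the better additive term. -/
theorem eff_tower (C H N : ℕ) (hC : 1 ≤ C) (hN : N ≤ tower H) :
    ((((Finset.Icc 1 N).filter (fun n => q (n + 1) + C < q n)).card : ℕ) : ℝ)
      ≤ 2 * (N + 1) / 2 ^ C + min (Nat.log 2 N) (H + 4) := by
  classical
  have hsub : (Finset.Icc 1 N).filter (fun n => q (n + 1) + C < q n)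
      ⊆ (Finset.Ico (C + 3) (min (Nat.log 2 N + 3) (H + 8))).biUnion (fun l =>
        (Finset.Icc 1 N).filter (fun n => q (n + 1) + C < q n ∧ q n = l)) := by
    intro n hn
    obtain ⟨hn0, hn1⟩ := Finset.mem_filter.1 hn
    have hn3 := Finset.mem_Icc.1 hn0
    rw [Finset.mem_biUnion]
    refine ⟨q n, ?_, Finset.mem_filter.2 ⟨hn0, hn1, rfl⟩⟩
    rw [Finset.mem_Ico]
    have h2 := two_le_q (n := n + 1) (by omega)
    have h4 := q_le_log hn3.1
    have h5 : Nat.log 2 n ≤ Nat.log 2 N := Nat.log_mono_right hn3.2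
    have h6 := q_le_tower (h := H) (m := n) hn3.1 (by omega)
    omega
  have hcard := (Finset.card_le_card hsub).trans Finset.card_biUnion_le
  have hcard2 : ((Finset.Icc 1 N).filter (fun n => q (n + 1) + C < q n)).card
      ≤ ∑ l ∈ Finset.Ico (C + 3) (min (Nat.log 2 N + 3) (H + 8)),
        ((N + 1) / 2 ^ (l - 3) + 1) :=
    hcard.trans (Finset.sum_le_sum fun l _ => top_level C l N hC)
  have hreal : ((((Finset.Icc 1 N).filter (fun n => q (n + 1) + C < q n)).card : ℕ) : ℝ)
      ≤ ∑ l ∈ Finset.Ico (C + 3) (min (Nat.log 2 N + 3) (H + 8)),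
        (((N : ℝ) + 1) * (16 * (1 / 2) ^ (l + 1)) + 1) := by
    refine le_trans (Nat.cast_le.2 hcard2) ?_
    rw [Nat.cast_sum]
    refine Finset.sum_le_sum fun l hl => ?_
    rw [Finset.mem_Ico] at hl
    push_cast
    have d1 : (((N + 1) / 2 ^ (l - 3) : ℕ) : ℝ) ≤ ((N + 1 : ℕ) : ℝ) / ((2 ^ (l - 3) : ℕ) : ℝ) :=
      Nat.cast_div_le
    have d2 : ((N + 1 : ℕ) : ℝ) / ((2 ^ (l - 3) : ℕ) : ℝ)
        = ((N : ℝ) + 1) * (16 * (1 / 2) ^ (l + 1)) := by
      have e : l + 1 = (l - 3) + 4 := by omega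
      rw [e, pow_add]
      push_cast
      rw [div_eq_mul_inv, ← inv_pow, one_div]
      ring
    rw [d2] at d1
    linarith
  have hg := MP_4964e1.N86.geo (C + 3) (min (Nat.log 2 N + 3) (H + 8))
  rw [Finset.sum_add_distrib, ← Finset.mul_sum, ← Finset.mul_sum, Finset.sum_const,
    Nat.card_Ico, nsmul_eq_mul, mul_one] at hreal
  have hN1 : (0 : ℝ) ≤ (N : ℝ) + 1 := by positivity
  have e1 : ((N : ℝ) + 1) * (16 * ∑ l ∈ Finset.Ico (C + 3) (min (Nat.log 2 N + 3) (H + 8)),
      (1 / 2 : ℝ) ^ (l + 1)) ≤ 2 * (N + 1) / 2 ^ C := by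
    have e2 : (16 : ℝ) * ∑ l ∈ Finset.Ico (C + 3) (min (Nat.log 2 N + 3) (H + 8)),
        (1 / 2 : ℝ) ^ (l + 1) ≤ 16 * (1 / 2) ^ (C + 3) := by linarith
    refine (mul_le_mul_of_nonneg_left e2 hN1).trans (le_of_eq ?_)
    rw [pow_add, div_eq_mul_inv (2 * ((N : ℝ) + 1)), ← inv_pow, one_div]
    ring
  have e3 : ((min (Nat.log 2 N + 3) (H + 8) - (C + 3) : ℕ) : ℝ)
      ≤ ((min (Nat.log 2 N) (H + 4) : ℕ) : ℝ) := by
    exact_mod_cast (by omega :
      min (Nat.log 2 N + 3) (H + 8) - (C + 3) ≤ min (Nat.log 2 N) (H + 4))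
  have e4 : ((min (Nat.log 2 N) (H + 4) : ℕ) : ℝ)
      = min ((Nat.log 2 N : ℕ) : ℝ) ((H : ℝ) + 4) := by
    push_cast
    rfl
  rw [e4] at e3
  linarith

end Pool.Agent.Lib.MP_4964e1_lc
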