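import Pool.Agent.Lib.MP_4964e1_lc.Hub71

/-!
A finite graph all of whose vertices have pairwise different types of depth `j` over `p`
parameters is defined in depth `p + j + 3`.
-/

namespace Pool.Agent.Lib.MP_4964e1_lc

open SimpleGraph

variable {V W U : Type}

theorem Bf.comp {G : SimpleGraph V} {H : SimpleGraph W} {K : SimpleGraph U} :
    ∀ {i : ℕ} {R : V → W → Prop} {S : W → U → Prop}, Bf G H i R → Bf H K i S →
      Bf G K i (fun a c => ∃ b, R a b ∧ S b c) := by
  have hA : ∀ {R : V → W → Prop} {S : W → U → Prop}, Atom G H R → Atom H K S →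
      Atom G K (fun a c => ∃ b, R a b ∧ S b c) := by
    rintro R S h1 h2 a c a' c' ⟨b, hb1, hb2⟩ ⟨b', hb1', hb2'⟩
    obtain ⟨e1, e2⟩ := h1 _ _ _ _ hb1 hb1'
    obtain ⟨f1, f2⟩ := h2 _ _ _ _ hb2 hb2'
    exact ⟨e1.trans f1, e2.trans f2⟩
  intro i
  induction i with
  | zero => exact fun h1 h2 => hA h1 h2
  | succ i ih =>
    intro R S h1 h2
    refine ⟨hA h1.1 h2.1, fun x => ?_, fun z => ?_⟩
    · obtain ⟨y, hy⟩ := h1.2.1 x
      obtain ⟨z, hz⟩ := h2.2.1 y
      refine ⟨z, (ih hy hz).mono ?_⟩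
      rintro a c (⟨b, hb1, hb2⟩ | ⟨rfl, rfl⟩)
      · exact ⟨b, Or.inl hb1, Or.inl hb2⟩
      · exact ⟨y, Or.inr ⟨rfl, rfl⟩, Or.inr ⟨rfl, rfl⟩⟩
    · obtain ⟨y, hy⟩ := h2.2.2 z
      obtain ⟨x, hx⟩ := h1.2.2 y
      refine ⟨x, (ih hx hy).mono ?_⟩
      rintro a c (⟨b, hb1, hb2⟩ | ⟨rfl, rfl⟩)
      · exact ⟨b, Or.inl hb1, Or.inl hb2⟩
      · exact ⟨y, Or.inr ⟨rfl, rfl⟩, Or.inr ⟨rfl, rfl⟩⟩

theorem dep_rigid (G : SimpleGraph V) (l : List V) (j : ℕ)
    (hrig : ∀ (S : V → V → Prop), (∀ x ∈ l, S x x) → Bf G G j S → ∀ c c', S c c' → c = c') :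
    Dep (l.length + (j + 3)) G := by
  intro W _ _ H' hH
  obtain ⟨R, -, hR, htot⟩ := exists_total (j + 3) l emp hH
  have uniq1 : ∀ c c' d, Bf G H' j (ins R c d) → Bf G H' j (ins R c' d) → c = c' := by
    intro c c' d h1 h2
    refine hrig (fun a a' => ∃ b, ins R c d a b ∧ ins R c' d a' b) ?_ (h1.comp h2.symm) c c'
      ⟨d, Or.inr ⟨rfl, rfl⟩, Or.inr ⟨rfl, rfl⟩⟩
    intro x hx
    obtain ⟨y, hy⟩ := htot x hx
    exact ⟨y, Or.inl hy, Or.inl hy⟩
  have uniq2 : ∀ c d d', Bf G H' (j + 1) (ins R c d) → Bf G H' j (ins R c d') → d = d' := by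
    intro c d d' h1 h2
    obtain ⟨c'', h3⟩ := h1.2.2 d'
    have h4 : Bf G H' j (ins R c'' d') := h3.mono (by
      rintro a b (h | h)
      · exact Or.inl (Or.inl h)
      · exact Or.inr h)
    have h5 := uniq1 c c'' d' h2 h4
    exact (h3.atom c d c'' d' (Or.inl (Or.inr ⟨rfl, rfl⟩)) (Or.inr ⟨rfl, rfl⟩)).1.1 h5
  choose F hF using hR.2.1
  have hinj : Function.Injective F := by
    intro c c' h
    have h1 := hF c
    rw [h] at h1
    exact uniq1 c c' (F c') h1.down.down (hF c').down.down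
  have hsurj : Function.Surjective F := by
    intro d
    obtain ⟨c, hc⟩ := hR.2.2 d
    exact ⟨c, uniq2 c (F c) d (hF c).down hc.down.down⟩
  refine ⟨⟨Equiv.ofBijective F ⟨hinj, hsurj⟩, ?_⟩⟩
  intro a b
  change H'.Adj (F a) (F b) ↔ G.Adj a b
  obtain ⟨d, hd⟩ := (hF a).2.1 b
  have h1 : Bf G H' (j + 1) (ins R b d) := hd.mono (by
    rintro a' b' (h | h)
    · exact Or.inl (Or.inl h)
    · exact Or.inr h)
  have h2 := uniq2 b d (F b) h1 (hF b).down.down
  subst h2
  exact (hd.atom a (F a) b (F b) (Or.inl (Or.inr ⟨rfl, rfl⟩)) (Or.inr ⟨rfl, rfl⟩)).2.symm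

/-- Vertices of the layered graph: three hubs and the nodes `(i, a)` with `i ≤ h`, `a < n i`. -/
abbrev LV (h : ℕ) (n : ℕ → ℕ) : Type :=
  Fin 3 ⊕ {p : ℕ × ℕ // p.1 ≤ h ∧ p.2 < n p.1}

/-- The hub `k` is joined to the node `(i, a)`. -/
def hubRel (k : Fin 3) (p : ℕ × ℕ) : Prop :=
  p.1 % 3 = k.1 ∨ (p.1 = 0 ∧ p.2 = 1 ∧ k.1 = 1)

theorem hub_facts {p r : ℕ × ℕ} (h : ∀ k, hubRel k p ↔ hubRel k r) :
    p.1 % 3 = r.1 % 3 ∧ ((p.1 = 0 ∧ p.2 = 1) ↔ (r.1 = 0 ∧ r.2 = 1)) := by
  have a0 : (p.1 % 3 = 0 ∨ (p.1 = 0 ∧ p.2 = 1 ∧ (0 : ℕ) = 1)) ↔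
    (r.1 % 3 = 0 ∨ (r.1 = 0 ∧ r.2 = 1 ∧ (0 : ℕ) = 1)) := h 0
  have a1 : (p.1 % 3 = 1 ∨ (p.1 = 0 ∧ p.2 = 1 ∧ (1 : ℕ) = 1)) ↔
    (r.1 % 3 = 1 ∨ (r.1 = 0 ∧ r.2 = 1 ∧ (1 : ℕ) = 1)) := h 1
  have a2 : (p.1 % 3 = 2 ∨ (p.1 = 0 ∧ p.2 = 1 ∧ (2 : ℕ) = 1)) ↔
    (r.1 % 3 = 2 ∨ (r.1 = 0 ∧ r.2 = 1 ∧ (2 : ℕ) = 1)) := h 2
  omega

/-- The node `p` is a member of the node `r`. -/
def memRel (p r : ℕ × ℕ) : Prop := r.1 = p.1 + 1 ∧ (r.2 + 1).testBit p.2 = true

/-- The layered graph. -/
def lay (h : ℕ) (n : ℕ → ℕ) : SimpleGraph (LV h n) where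
  Adj x y := match x, y with
    | Sum.inl _, Sum.inl _ => False
    | Sum.inl k, Sum.inr p => hubRel k p.1
    | Sum.inr p, Sum.inl k => hubRel k p.1
    | Sum.inr p, Sum.inr r => memRel p.1 r.1 ∨ memRel r.1 p.1
  symm := ⟨by
    rintro (k | p) (l | r) h
    · exact h
    · exact h
    · exact h
    · exact Or.symm h⟩
  loopless := ⟨by
    rintro (k | p) h
    · exact h
    · rcases h with h | h
      · exact absurd h.1 (by omega)
      · exact absurd h.1 (by omega)⟩

theorem mod3_lt (i : ℕ) : i % 3 < 3 := Nat.mod_lt _ (by norm_num)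

theorem lay_rigid (h : ℕ) (n : ℕ → ℕ) (h0 : n 0 ≤ 2) (hn : ∀ i, n (i + 1) < 2 ^ n i) :
    ∀ (i j : ℕ) (S : LV h n → LV h n → Prop), (∀ k, S (Sum.inl k) (Sum.inl k)) → i < j →
      Bf (lay h n) (lay h n) j S → ∀ p r, (p.1.1 = i ∧ i ≤ r.1.1) ∨ (r.1.1 = i ∧ i ≤ p.1.1) →
        S (Sum.inr p) (Sum.inr r) → p = r := by
  intro i
  induction i using Nat.strong_induction_on with
  | _ i ih =>
    -- it is enough to treat `p` of the lower level
    have key : ∀ (j : ℕ) (S : LV h n → LV h n → Prop), (∀ k, S (Sum.inl k) (Sum.inl k)) → i < j →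
        Bf (lay h n) (lay h n) j S → ∀ p r, p.1.1 = i → i ≤ r.1.1 →
        S (Sum.inr p) (Sum.inr r) → p = r := by
      intro j S hS hij hB p r hp hr hpr
      obtain ⟨j, rfl⟩ : ∃ j', j = j' + 1 := ⟨j - 1, by omega⟩
      have hhub : ∀ k : Fin 3, hubRel k p.1 ↔ hubRel k r.1 := fun k =>
        (hB.atom (Sum.inl k) (Sum.inl k) (Sum.inr p) (Sum.inr r) (hS k) hpr).2
      have hmod : p.1.1 % 3 = r.1.1 % 3 := (hub_facts hhub).1
      -- an element of `r` is played, the answer is an element of `p`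
      have hplay : ∀ t : {p : ℕ × ℕ // p.1 ≤ h ∧ p.2 < n p.1}, memRel t.1 r.1 →
          ∃ t' : {p : ℕ × ℕ // p.1 ≤ h ∧ p.2 < n p.1}, memRel t'.1 p.1 ∧ t' = t := by
        intro t ht
        obtain ⟨y, hy⟩ := hB.2.2 (Sum.inr t)
        rcases y with k | t'
        · exfalso
          have := (hy.atom (Sum.inl k) (Sum.inl k) (Sum.inl k) (Sum.inr t)
            (Or.inl (hS k)) (Or.inr ⟨rfl, rfl⟩)).1.1 rfl
          cases this
        · have hadj : memRel t'.1 p.1 ∨ memRel p.1 t'.1 :=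
            (hy.atom (Sum.inr t') (Sum.inr t) (Sum.inr p) (Sum.inr r)
              (Or.inr ⟨rfl, rfl⟩) (Or.inl hpr)).2.2 (Or.inl ht)
          have ht1 := ht.1
          have hh : ∀ k : Fin 3, hubRel k t'.1 ↔ hubRel k t.1 := fun k =>
            (hy.atom (Sum.inl k) (Sum.inl k) (Sum.inr t') (Sum.inr t)
              (Or.inl (hS k)) (Or.inr ⟨rfl, rfl⟩)).2
          have hmem : memRel t'.1 p.1 := by
            rcases hadj with h1 | h1
            · exact h1
            · exfalso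
              have h2 := h1.1
              have a0 := (hub_facts hh).1
              omega
          have hm1 := hmem.1
          refine ⟨t', hmem, ?_⟩
          exact ih t'.1.1 (by omega) j _ (fun k => Or.inl (hS k)) (by omega) hy t' t
            (Or.inl ⟨rfl, by omega⟩) (Or.inr ⟨rfl, rfl⟩)
      have hplay' : ∀ t : {p : ℕ × ℕ // p.1 ≤ h ∧ p.2 < n p.1}, memRel t.1 p.1 →
          ∃ t' : {p : ℕ × ℕ // p.1 ≤ h ∧ p.2 < n p.1}, memRel t'.1 r.1 ∧ t = t' := by
        intro t ht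
        obtain ⟨y, hy⟩ := hB.2.1 (Sum.inr t)
        rcases y with k | t'
        · exfalso
          have := (hy.atom (Sum.inl k) (Sum.inl k) (Sum.inr t) (Sum.inl k)
            (Or.inl (hS k)) (Or.inr ⟨rfl, rfl⟩)).1.2 rfl
          cases this
        · have hadj : memRel t'.1 r.1 ∨ memRel r.1 t'.1 :=
            (hy.atom (Sum.inr t) (Sum.inr t') (Sum.inr p) (Sum.inr r)
              (Or.inr ⟨rfl, rfl⟩) (Or.inl hpr)).2.1 (Or.inl ht)
          have ht1 := ht.1
          have hh : ∀ k : Fin 3, hubRel k t.1 ↔ hubRel k t'.1 := fun k =>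
            (hy.atom (Sum.inl k) (Sum.inl k) (Sum.inr t) (Sum.inr t')
              (Or.inl (hS k)) (Or.inr ⟨rfl, rfl⟩)).2
          have hmem : memRel t'.1 r.1 := by
            rcases hadj with h1 | h1
            · exact h1
            · exfalso
              have h2 := h1.1
              have a0 := (hub_facts hh).1
              omega
          have hm1 := hmem.1
          refine ⟨t', hmem, ?_⟩
          exact ih t.1.1 (by omega) j _ (fun k => Or.inl (hS k)) (by omega) hy t t'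
            (Or.inl ⟨rfl, by omega⟩) (Or.inr ⟨rfl, rfl⟩)
      -- bits of `r.2 + 1` give nodes
      have hbit : ∀ (s : {p : ℕ × ℕ // p.1 ≤ h ∧ p.2 < n p.1}) (c b : ℕ), s.1.1 = c + 1 →
          (s.1.2 + 1).testBit b = true → b < n c := by
        intro s c b hs hb
        have h1 := s.2.2
        rw [hs] at h1
        have h2 := hn c
        by_contra hc
        have h3 : s.1.2 + 1 < 2 ^ b := lt_of_lt_of_le (by omega)
          (Nat.pow_le_pow_right (by norm_num) (show n c ≤ b by omega))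
        rw [Nat.testBit_lt_two_pow h3] at hb
        cases hb
      rcases Nat.eq_or_lt_of_le hr with he | hlt
      · -- same level
        rcases Nat.eq_zero_or_pos i with hi0 | hipos
        · have hp2 := p.2.2
          have hr2 := r.2.2
          have ep : p.1.1 = 0 := by omega
          have er : r.1.1 = 0 := by omega
          rw [ep] at hp2
          rw [er] at hr2
          have a1 := (hub_facts hhub).2
          have : p.1.2 = r.1.2 := by omega
          exact Subtype.ext (Prod.ext (by omega) this)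
        · obtain ⟨c, hc⟩ : ∃ c, i = c + 1 := ⟨i - 1, by omega⟩
          have hp1 : p.1.1 = c + 1 := by omega
          have hr1 : r.1.1 = c + 1 := by omega
          have hbits : p.1.2 + 1 = r.1.2 + 1 := by
            apply Nat.eq_of_testBit_eq
            intro b
            apply Bool.eq_iff_iff.2
            constructor
            · intro hb
              have hlt := hbit p c b hp1 hb
              obtain ⟨t', h1, h2⟩ := hplay' ⟨(c, b), by
                have := p.2.1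
                exact ⟨by simp only; omega, hlt⟩⟩ ⟨hp1, hb⟩
              rw [← h2] at h1
              exact h1.2
            · intro hb
              have hlt := hbit r c b hr1 hb
              obtain ⟨t', h1, h2⟩ := hplay ⟨(c, b), by
                have := r.2.1
                exact ⟨by simp only; omega, hlt⟩⟩ ⟨hr1, hb⟩
              rw [h2] at h1
              exact h1.2
          exact Subtype.ext (Prod.ext (by omega) (by omega))
      · -- different levels
        exfalso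
        obtain ⟨c, hc⟩ : ∃ c, r.1.1 = c + 1 := ⟨r.1.1 - 1, by omega⟩
        obtain ⟨b, hb⟩ : ∃ b, (r.1.2 + 1).testBit b = true :=
          Nat.exists_testBit_of_ne_zero (by omega)
        have hlt2 := hbit r c b hc hb
        obtain ⟨t', h1, h2⟩ := hplay ⟨(c, b), by
          have := r.2.1
          exact ⟨by simp only; omega, hlt2⟩⟩ ⟨hc, hb⟩
        rw [h2] at h1
        have := h1.1
        simp only at this
        omega
    intro j S hS hij hB p r hpr hSpr
    rcases hpr with ⟨h1, h2⟩ | ⟨h1, h2⟩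
    · exact key j S hS hij hB p r h1 h2 hSpr
    · exact (key j (fun b a => S a b) hS hij hB.symm r p h1 h2 hSpr).symm

theorem dep_lay (h : ℕ) (n : ℕ → ℕ) (h0 : n 0 ≤ 2) (hn : ∀ i, n (i + 1) < 2 ^ n i) :
    Dep (h + 7) (lay h n) := by
  have := dep_rigid (lay h n) [Sum.inl 0, Sum.inl 1, Sum.inl 2] (h + 1) ?_
  · have e : [(Sum.inl 0 : LV h n), Sum.inl 1, Sum.inl 2].length + (h + 1 + 3) = h + 7 := by
      simp only [List.length_cons, List.length_nil]
      omega
    rwa [e] at this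
  · intro S hS hB c c' hcc
    have hS' : ∀ k, S (Sum.inl k) (Sum.inl k) := by
      intro k
      fin_cases k
      · exact hS _ (by simp)
      · exact hS _ (by simp)
      · exact hS _ (by simp)
    rcases c with k | p
    · exact (hB.atom _ _ _ _ (hS' k) hcc).1.1 rfl
    · rcases c' with k | r
      · exact ((hB.atom _ _ _ _ (hS' k) hcc).1.2 rfl).symm
      · congr 1
        rcases le_total p.1.1 r.1.1 with h1 | h1
        · have := p.2.1
          exact lay_rigid h n h0 hn p.1.1 (h + 1) S hS' (by omega) hB p r (Or.inl ⟨rfl, h1⟩) hcc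
        · have := r.2.1
          exact lay_rigid h n h0 hn r.1.1 (h + 1) S hS' (by omega) hB p r (Or.inr ⟨rfl, h1⟩) hcc

end Pool.Agent.Lib.MP_4964e1_lc
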