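import Pool.Agent.Lib.MP_4964e1_lc.TQ86

/-!
The effective almost all theorem in a closed form.
-/

namespace Pool.Agent.Lib.MP_4964e1_lc

open Finset

theorem tower_mono {a b : ℕ} (h : a ≤ b) : tower a ≤ tower b := by
  induction h with
  | refl => exact le_rfl
  | @step m _ ih =>
    have h1 := two_mul_tower m
    have h2 := one_le_tower m
    exact ih.trans (le_trans (by omega) h1)

theorem lt_tower (k : ℕ) : k < tower k := by
  induction k with
  | zero => exact Nat.zero_lt_one
  | succ k ih =>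
    have h1 := two_mul_tower k
    omega

theorem quad_le (L : ℕ) (hL : 8 ≤ L) : (2 * L + 3) * L ≤ 2 ^ L := by
  induction L, hL using Nat.le_induction with
  | base => norm_num
  | succ L hL ih =>
    rw [pow_succ]
    nlinarith

/-- Closed form. -/
theorem almost_clean (s h a N : ℕ) (hs : 1 ≤ s) (hsh : s ≤ tower h)
    (ha : 2 * ((h + 8) * (h + 8)) + (h + 8) ≤ tower a) (hN : tower (h + 10 + a) ≤ N) :
    ((((Finset.Icc 1 N).filter
      (fun n => q (n + s) + 1 < q n ∨ q n + 1 < q (n + s))).card : ℕ) : ℝ)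
      ≤ 3 * s * N / tower h := by
  classical
  have hex : ∃ H, N ≤ tower H := ⟨N, (lt_tower N).le⟩
  set H := Nat.find hex with hH
  have hNH : N ≤ tower H := Nat.find_spec hex
  have hmin : ∀ k, k < H → tower k < N := fun k hk => by
    have := Nat.find_min hex hk
    omega
  have hN0 : N ≠ 0 := by
    have := one_le_tower (h + 10 + a)
    omega
  have hHL : H ≤ Nat.log 2 N + 1 := by
    rcases Nat.lt_or_ge H 2 with h2 | h2
    · omega
    · obtain ⟨k, hk⟩ : ∃ k, H = k + 2 := ⟨H - 2, by omega⟩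
      have h3 := hmin (k + 1) (by omega)
      have h4 : 2 ^ tower k ≤ N := h3.le
      have h5 : tower k ≤ Nat.log 2 N := (Nat.le_log_iff_pow_le (by norm_num) hN0).2 h4
      have h6 := lt_tower k
      omega
  have ht : tower (h + 9 + a) ≤ Nat.log 2 N := by
    rw [Nat.le_log_iff_pow_le (by norm_num) hN0]
    have e : h + 10 + a = (h + 9 + a) + 1 := by ring
    rw [e] at hN
    exact hN
  have hT : tower h ≤ Nat.log 2 N := (tower_mono (by omega)).trans ht
  have h8 : 8 ≤ Nat.log 2 N := by
    refine le_trans ?_ ht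
    have := lt_tower (h + 9 + a)
    omega
  have hq := quad_le _ h8
  have hNl : 2 ^ Nat.log 2 N ≤ N := Nat.pow_log_le_self 2 hN0
  have hmain : (2 + (H - h) + tower (h + 9 + a)) * tower h ≤ N := by
    refine le_trans (Nat.mul_le_mul (show _ ≤ 2 * Nat.log 2 N + 3 by omega) hT) ?_
    exact hq.trans hNl
  have h1 := almost_eff s h H a N hs hsh hNH ha
  refine h1.trans ?_
  have hT0 : (0 : ℝ) < tower h := by exact_mod_cast one_le_tower h
  have hT1 : (1 : ℝ) ≤ tower h := by exact_mod_cast one_le_tower h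
  have hs0 : (1 : ℝ) ≤ s := by exact_mod_cast hs
  have hm : ((2 : ℝ) + (H - h : ℕ) + tower (h + 9 + a)) * tower h ≤ N := by
    exact_mod_cast hmain
  rw [le_div_iff₀ hT0]
  have e1 : ((s : ℝ) * (2 * (N + 1) / tower h + (H - h : ℕ)) + tower (h + 9 + a)) * tower h =
      s * (2 * (N + 1)) + s * (H - h : ℕ) * tower h + tower (h + 9 + a) * tower h := by
    field_simp
  rw [e1]
  have e2 : (tower (h + 9 + a) : ℝ) * tower h ≤ s * (tower (h + 9 + a) * tower h) := by
    have : (0 : ℝ) ≤ (tower (h + 9 + a) : ℝ) * tower h := by positivity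
    nlinarith
  have e3 : (s : ℝ) * 2 ≤ s * (2 * tower h) := by nlinarith
  have e4 : (s : ℝ) * (((2 : ℝ) + (H - h : ℕ) + tower (h + 9 + a)) * tower h) ≤ s * N := by
    nlinarith
  nlinarith

end Pool.Agent.Lib.MP_4964e1_lc
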