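import Pool.Agent.Lib.MP_4964e1_lc.Game71

/-!
The disjoint union of two graphs defined in depth `k` is, up to complementation, defined in
depth `k + 2`.
-/

namespace Pool.Agent.Lib.MP_4964e1_lc

open SimpleGraph

variable {V W U : Type}

/-- Distance at most two. -/
def Near (G : SimpleGraph V) (a c : V) : Prop :=
  a = c ∨ G.Adj a c ∨ ∃ p, G.Adj a p ∧ G.Adj p c

theorem near_transfer_aux {G : SimpleGraph V} {H : SimpleGraph W} {j : ℕ} {R : V → W → Prop}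
    (h : Bf G H (j + 1) R) {a c : V} {b d : W} (hab : R a b) (hcd : R c d) (hn : Near G a c) :
    Near H b d := by
  rcases hn with hn | hn | ⟨p, h1, h2⟩
  · exact Or.inl ((h.atom _ _ _ _ hab hcd).1.1 hn)
  · exact Or.inr (Or.inl ((h.atom _ _ _ _ hab hcd).2.1 hn))
  · obtain ⟨r, hr⟩ := h.2.1 p
    refine Or.inr (Or.inr ⟨r, ?_, ?_⟩)
    · exact (hr.atom _ _ _ _ (Or.inl hab) (Or.inr ⟨rfl, rfl⟩)).2.1 h1
    · exact (hr.atom _ _ _ _ (Or.inr ⟨rfl, rfl⟩) (Or.inl hcd)).2.1 h2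

theorem near_transfer {G : SimpleGraph V} {H : SimpleGraph W} {j : ℕ} {R : V → W → Prop}
    (h : Bf G H (j + 1) R) {a c : V} {b d : W} (hab : R a b) (hcd : R c d) :
    Near G a c ↔ Near H b d :=
  ⟨near_transfer_aux h hab hcd, near_transfer_aux h.symm hab hcd⟩

theorem exists_center [Nonempty V] (G : SimpleGraph V) :
    (∃ x, ∀ y, Near G x y) ∨ (∃ x, ∀ y, Near Gᶜ x y) := by
  by_cases h : ∀ u v, Near G u v
  · exact Or.inl ⟨Classical.arbitrary V, fun y => h _ y⟩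
  · right
    push Not at h
    obtain ⟨u, v, huv⟩ := h
    unfold Near at huv
    push Not at huv
    obtain ⟨h1, h2, h3⟩ := huv
    refine ⟨u, fun y => ?_⟩
    by_cases hy : u = y
    · exact Or.inl hy
    · by_cases hG : G.Adj u y
      · have h4 := h3 y hG
        right
        right
        refine ⟨v, ?_, ?_⟩
        · rw [SimpleGraph.compl_adj]
          exact ⟨h1, h2⟩
        · rw [SimpleGraph.compl_adj]
          refine ⟨fun h5 => h2 (h5 ▸ hG), fun h5 => h4 h5.symm⟩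
      · right
        left
        rw [SimpleGraph.compl_adj]
        exact ⟨hy, hG⟩

theorem relativise {G : SimpleGraph V} {H : SimpleGraph U} {H' : SimpleGraph W} (f : V → U)
    (hf : Function.Injective f) (hadj : ∀ x y, H.Adj (f x) (f y) ↔ G.Adj x y) (a : U) (b : W)
    (Q : U → Prop) (P : Set W) (hQ : ∀ c, Q c ↔ c ∈ Set.range f)
    (hPQ : ∀ (j : ℕ) (R : U → W → Prop), Bf H H' (j + 1) R → R a b →
      ∀ c d, R c d → (Q c ↔ d ∈ P)) :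
    ∀ (j : ℕ) (R : V → P → Prop),
      Bf H H' (j + 1) (fun u w => (u = a ∧ w = b) ∨ ∃ x z, R x z ∧ u = f x ∧ w = z.1) →
      Bf G (H'.induce P) j R := by
  have hA : ∀ (j : ℕ) (R : V → P → Prop),
      Bf H H' (j + 1) (fun u w => (u = a ∧ w = b) ∨ ∃ x z, R x z ∧ u = f x ∧ w = z.1) →
      Atom G (H'.induce P) R := by
    intro j R h x z x' z' h1 h2
    obtain ⟨e1, e2⟩ := h.atom (f x) z.1 (f x') z'.1 (Or.inr ⟨x, z, h1, rfl, rfl⟩)
      (Or.inr ⟨x', z', h2, rfl, rfl⟩)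
    refine ⟨?_, ?_⟩
    · rw [← hf.eq_iff, e1, Subtype.ext_iff]
    · rw [← hadj, e2]
      exact Iff.rfl
  intro j
  induction j with
  | zero => exact fun R h => hA 0 R h
  | succ j ih =>
    intro R h
    refine ⟨hA _ R h, fun x => ?_, fun z => ?_⟩
    · obtain ⟨w, hw⟩ := h.2.1 (f x)
      have hwP : w ∈ P := (hPQ j _ hw (Or.inl (Or.inl ⟨rfl, rfl⟩)) (f x) w
        (Or.inr ⟨rfl, rfl⟩)).1 ((hQ _).2 ⟨x, rfl⟩)
      refine ⟨⟨w, hwP⟩, ih _ (hw.mono ?_)⟩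
      rintro u w' (h1 | ⟨x', z', (h2 | ⟨rfl, rfl⟩), rfl, rfl⟩)
      · exact Or.inl (Or.inl h1)
      · exact Or.inl (Or.inr ⟨x', z', h2, rfl, rfl⟩)
      · exact Or.inr ⟨rfl, rfl⟩
    · obtain ⟨c, hc⟩ := h.2.2 z.1
      have hcQ : Q c := (hPQ j _ hc (Or.inl (Or.inl ⟨rfl, rfl⟩)) c z.1
        (Or.inr ⟨rfl, rfl⟩)).2 z.2
      obtain ⟨x, rfl⟩ := (hQ c).1 hcQ
      refine ⟨x, ih _ (hc.mono ?_)⟩
      rintro u w' (h1 | ⟨x', z', (h2 | ⟨rfl, rfl⟩), rfl, rfl⟩)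
      · exact Or.inl (Or.inl h1)
      · exact Or.inl (Or.inr ⟨x', z', h2, rfl, rfl⟩)
      · exact Or.inr ⟨rfl, rfl⟩

theorem dep_sum {V₁ V₂ : Type} [Nonempty V₂] (G₁ : SimpleGraph V₁) (G₂ : SimpleGraph V₂)
    {k : ℕ} (hk : 2 ≤ k) (h1 : Dep k G₁) (h2 : Dep k G₂) (x₀ : V₁)
    (hx₀ : ∀ y, Near G₁ x₀ y) : Dep (k + 2) (G₁ ⊕g G₂) := by
  intro W _ _ H' hH
  obtain ⟨k, rfl⟩ : ∃ k', k = k' + 2 := ⟨k - 2, by omega⟩
  obtain ⟨b, hb⟩ := hH.2.1 (Sum.inl x₀)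
  set H := G₁ ⊕g G₂ with hHdef
  have hQ : ∀ c, Near H (Sum.inl x₀) c ↔ c ∈ Set.range (Sum.inl : V₁ → V₁ ⊕ V₂) := by
    rintro (y | y)
    · refine ⟨fun _ => ⟨y, rfl⟩, fun _ => ?_⟩
      rcases hx₀ y with h | h | ⟨p, h, h'⟩
      · exact Or.inl (congrArg _ h)
      · exact Or.inr (Or.inl (by simpa [hHdef] using h))
      · exact Or.inr (Or.inr ⟨Sum.inl p, by simpa [hHdef] using h, by simpa [hHdef] using h'⟩)
    · refine ⟨fun h => ?_, fun ⟨z, hz⟩ => by cases hz⟩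
      rcases h with h | h | ⟨p | p, h, h'⟩
      · cases h
      · simp [hHdef] at h
      · simp [hHdef] at h'
      · simp [hHdef] at h
  let P : Set W := {z | Near H' b z}
  have hab : ∀ {j : ℕ} {R : V₁ ⊕ V₂ → W → Prop}, Bf H H' (j + 1) R → R (Sum.inl x₀) b →
      ∀ c d, R c d → (Near H (Sum.inl x₀) c ↔ d ∈ P) :=
    fun h hr c d hcd => near_transfer h hr hcd
  have hbP : b ∈ P := Or.inl rfl
  -- the first part
  have hb1 : Bf G₁ (H'.induce P) (k + 2) emp := by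
    refine relativise Sum.inl Sum.inl_injective (fun x y => by simp [hHdef]) (Sum.inl x₀) b
      (fun c => Near H (Sum.inl x₀) c) P hQ (fun j R h hr => hab h hr) (k + 2) emp
      (hb.mono ?_)
    rintro u w (⟨rfl, rfl⟩ | ⟨_, _, h, _⟩)
    · exact Or.inr ⟨rfl, rfl⟩
    · exact h.elim
  have hb2 : Bf G₂ (H'.induce Pᶜ) (k + 2) emp := by
    refine relativise Sum.inr Sum.inr_injective (fun x y => by simp [hHdef]) (Sum.inl x₀) b
      (fun c => ¬ Near H (Sum.inl x₀) c) Pᶜ (fun c => ?_)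
      (fun j R h hr c d hcd => not_congr (hab h hr c d hcd)) (k + 2) emp (hb.mono ?_)
    · rw [hQ]
      rcases c with y | y <;> simp
    · rintro u w (⟨rfl, rfl⟩ | ⟨_, _, h, _⟩)
      · exact Or.inr ⟨rfl, rfl⟩
      · exact h.elim
  have hne1 : Nonempty P := ⟨⟨b, hbP⟩⟩
  have hne2 : Nonempty (Pᶜ : Set W) := by
    obtain ⟨y₀⟩ := (inferInstance : Nonempty V₂)
    obtain ⟨z, hz⟩ := hb.2.1 (Sum.inr y₀)
    refine ⟨⟨z, fun hzP => ?_⟩⟩
    have h3 := (hab hz (Or.inl (Or.inr ⟨rfl, rfl⟩)) (Sum.inr y₀) z (Or.inr ⟨rfl, rfl⟩)).2 hzP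
    rw [hQ] at h3
    obtain ⟨_, h3⟩ := h3
    cases h3
  have hno : ∀ z ∈ P, ∀ w ∉ P, ¬ H'.Adj z w := by
    intro z hz w hw hadj
    obtain ⟨c, hc⟩ := hb.2.2 z
    obtain ⟨d, hd⟩ := hc.2.2 w
    have h3 := (hab hd (Or.inl (Or.inl (Or.inr ⟨rfl, rfl⟩))) c z (Or.inl (Or.inr ⟨rfl, rfl⟩))).2 hz
    have h4 := (not_congr (hab hd (Or.inl (Or.inl (Or.inr ⟨rfl, rfl⟩))) d w
      (Or.inr ⟨rfl, rfl⟩))).2 hw
    rw [hQ] at h3 h4
    have h5 := (hd.atom c z d w (Or.inl (Or.inr ⟨rfl, rfl⟩)) (Or.inr ⟨rfl, rfl⟩)).2.2 hadj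
    obtain ⟨c', rfl⟩ := h3
    rcases d with d | d
    · exact h4 ⟨d, rfl⟩
    · simp [hHdef] at h5
  obtain ⟨e1⟩ := h1 P (H'.induce P) hb1
  obtain ⟨e2⟩ := h2 (Pᶜ : Set W) (H'.induce Pᶜ) hb2
  classical
  refine ⟨⟨(Equiv.sumCongr e1.toEquiv e2.toEquiv).trans (Equiv.Set.sumCompl P), ?_⟩⟩
  rintro (x | x) (y | y)
  · have h3 : H'.Adj (e1 x : W) (e1 y : W) ↔ G₁.Adj x y := e1.map_adj_iff
    simpa [hHdef] using h3
  · have h3 := hno (e1 x : W) (e1 x).2 (e2 y : W) (e2 y).2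
    simpa [hHdef] using h3
  · have h3 := hno (e1 y : W) (e1 y).2 (e2 x : W) (e2 x).2
    have h4 : ¬ H'.Adj (e2 x : W) (e1 y : W) := fun h => h3 h.symm
    simpa [hHdef] using h4
  · have h3 : H'.Adj (e2 x : W) (e2 y : W) ↔ G₂.Adj x y := e2.map_adj_iff
    simpa [hHdef] using h3

end Pool.Agent.Lib.MP_4964e1_lc
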